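import Pool.Agent.Lib.MP_d118f9_ag.K.AltA

/-!
# MP_d118f9_ag, block K: antisymmetrisation
-/

set_option autoImplicit false

noncomputable section

namespace Pool.Agent.MPd118f9

section

variable {ι M M' : Type} [AddCommGroup M] [AddCommGroup M'] {n : ℕ}

private theorem sign_smul_smul {n : ℕ} {M : Type} [AddCommGroup M] (σ : Equiv.Perm (Fin n))
    (x : M) :
    ((Equiv.Perm.sign σ : ℤˣ) : ℤ) • ((Equiv.Perm.sign σ : ℤˣ) : ℤ) • x = x := by
  rw [smul_smul, ← Units.val_mul, Int.units_mul_self, Units.val_one, one_smul]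

/-- Proof. Reindex the sum over the permutations. -/
theorem alt_asymm (G : (Fin n → ι) → M) : Alt (asymm G) := by
  intro τ I
  rw [asymm, asymm, Finset.smul_sum]
  refine Fintype.sum_equiv (Equiv.mulLeft τ) _ _ fun σ => ?_
  have h1 : (I ∘ τ) ∘ σ = I ∘ (τ * σ : Equiv.Perm (Fin n)) := rfl
  rw [Equiv.coe_mulLeft, h1, Equiv.Perm.sign_mul, Units.val_mul, mul_smul, sign_smul_smul]

theorem asymm_mem {N : AddSubgroup M} {G : (Fin n → ι) → M} (h : ∀ I, G I ∈ N)
    (I : Fin n → ι) : asymm G I ∈ N :=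
  sum_mem fun _ _ => zsmul_mem (h _) _

/-- Antisymmetrisation of an alternating function. -/
theorem asymm_of_alt {G : (Fin n → ι) → M} (h : Alt G) (I : Fin n → ι) :
    asymm G I = (n.factorial : ℤ) • G I := by
  have h1 : ∀ σ : Equiv.Perm (Fin n),
      ((Equiv.Perm.sign σ : ℤˣ) : ℤ) • G (I ∘ σ) = G I := fun σ => by
    rw [h σ I, sign_smul_smul]
  rw [asymm, Finset.sum_congr rfl fun σ _ => h1 σ, Finset.sum_const, Finset.card_univ,
    Fintype.card_perm, Fintype.card_fin, natCast_zsmul]

/-- The antisymmetrisation lemma.  `G` is a function of `n + 1` indices whose contraction in the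
slots `1, …, n` vanishes and whose contraction in the slot `0` is an alternating function `F`.  Then
the contraction of the antisymmetrisation of `G` is `n! F`.

Proof. `∑ j, φ j (asymm G (cons j J)) = ∑ σ, sign σ • ∑ j, φ j (G (cons j J ∘ σ))`.
For `σ` with `σ x = 0`, `x = l.succ`, the function `cons j J ∘ σ` is
`update (cons j₀ J ∘ σ) x j` for any `j₀` (if there is no index `j₀` everything is empty), so the
inner sum vanishes by `hG`.  The `σ` with `σ 0 = 0` are `Equiv.Perm.decomposeFin.symm (0, τ)`,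
`cons j J ∘ σ = cons j (J ∘ τ)`, `sign σ = sign τ`, and the inner sum is
`F (J ∘ τ) = sign τ • F J`. -/
theorem sum_asymm [Fintype ι] [DecidableEq ι] (φ : ι → M →+ M') (G : (Fin (n + 1) → ι) → M)
    (hG : ∀ (l : Fin n) (I : Fin (n + 1) → ι), ∑ j, φ j (G (Function.update I l.succ j)) = 0)
    {F : (Fin n → ι) → M'} (hF : Alt F) (h0 : ∀ J, ∑ j, φ j (G (Fin.cons j J)) = F J)
    (J : Fin n → ι) : ∑ j, φ j (asymm G (Fin.cons j J)) = (n.factorial : ℤ) • F J := by
  have h1 : ∑ j, φ j (asymm G (Fin.cons j J)) = ∑ σ : Equiv.Perm (Fin (n + 1)),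
      ((Equiv.Perm.sign σ : ℤˣ) : ℤ) • ∑ j, φ j (G (Fin.cons j J ∘ σ)) := by
    simp only [asymm, map_sum, map_zsmul, Finset.smul_sum]
    exact Finset.sum_comm
  rw [h1, ← Equiv.sum_comp Equiv.Perm.decomposeFin.symm, Fintype.sum_prod_type,
    Fin.sum_univ_succ]
  have h2 : ∀ (q : Fin n) (e : Equiv.Perm (Fin n)),
      ∑ j, φ j (G (Fin.cons j J ∘ (Equiv.Perm.decomposeFin.symm (q.succ, e)))) = 0 := by
    intro q e
    rcases isEmpty_or_nonempty ι with hι | ⟨⟨j₀⟩⟩
    · exact Finset.sum_eq_zero fun j _ => isEmptyElim j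
    · rw [← hG (e.symm q) (Fin.cons j₀ J ∘ (Equiv.Perm.decomposeFin.symm (q.succ, e)))]
      refine Finset.sum_congr rfl fun j _ => ?_
      congr 2
      have hs : Equiv.Perm.decomposeFin.symm (q.succ, e) (e.symm q).succ = 0 := by
        rw [Equiv.Perm.decomposeFin_symm_apply_succ, Equiv.apply_symm_apply,
          Equiv.swap_apply_right]
      funext y
      by_cases hy : y = (e.symm q).succ
      · rw [hy, Function.update_self, Function.comp_apply, hs, Fin.cons_zero]
      · rw [Function.update_of_ne hy, Function.comp_apply, Function.comp_apply]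
        have hne : Equiv.Perm.decomposeFin.symm (q.succ, e) y ≠ 0 := by
          intro h3
          exact hy ((Equiv.Perm.decomposeFin.symm (q.succ, e)).injective (h3.trans hs.symm))
        obtain ⟨z, hz⟩ := Fin.exists_succ_eq.2 hne
        rw [← hz, Fin.cons_succ, Fin.cons_succ]
  have h3 : ∀ e : Equiv.Perm (Fin n), ∑ j, φ j (G (Fin.cons j J ∘
      (Equiv.Perm.decomposeFin.symm (0, e)))) = ((Equiv.Perm.sign e : ℤˣ) : ℤ) • F J := by
    intro e
    rw [← hF e J, ← h0]
    refine Finset.sum_congr rfl fun j _ => ?_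
    congr 2
    funext k
    induction k using Fin.cases with
    | zero => simp
    | succ k => simp
  simp only [h2, h3, smul_zero, Finset.sum_const_zero, add_zero,
    Equiv.Perm.decomposeFin.symm_sign, if_true, one_mul, sign_smul_smul, Finset.sum_const,
    Finset.card_univ, Fintype.card_perm, Fintype.card_fin, natCast_zsmul]

end

/-- The same lemma for the multiplication by `v_j`, divided by `n!`: there is an alternating
`b` with values in `N` and `F = dk v b`.

Proof. `b = (n!)⁻¹ • asymm G`, `sum_asymm` with `φ j` = multiplication by `v j`. -/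
theorem exists_alt_of_slots {k A ι : Type} [Field k] [CharZero k] [CommRing A] [Algebra k A]
    [Fintype ι] {n : ℕ} (v : ι → A) (N : Submodule k A) (G : (Fin (n + 1) → ι) → A)
    (hN : ∀ I, G I ∈ N)
    (hG : ∀ (l : Fin n) (I : Fin (n + 1) → ι), ∑ j, v j * G (Function.update I l.succ j) = 0)
    {F : (Fin n → ι) → A} (hF : Alt F) (h0 : ∀ J, ∑ j, v j * G (Fin.cons j J) = F J) :
    ∃ b : (Fin (n + 1) → ι) → A, Alt b ∧ (∀ I, b I ∈ N) ∧ ∀ J, F J = dk v b J := by
  classical
  have hfac : ((n.factorial : ℕ) : k) ≠ 0 := Nat.cast_ne_zero.2 n.factorial_ne_zero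
  refine ⟨fun I => ((n.factorial : ℕ) : k)⁻¹ • asymm G I, ?_, ?_, ?_⟩
  · exact alt_hom (alt_asymm G) (DistribSMul.toAddMonoidHom A (((n.factorial : ℕ) : k)⁻¹))
  · intro I
    exact N.smul_mem _ (asymm_mem (N := N.toAddSubgroup) hN I)
  · intro J
    have h1 := sum_asymm (fun j => AddMonoidHom.mulLeft (v j)) G hG hF h0 J
    simp only [AddMonoidHom.coe_mulLeft] at h1
    have h2 : dk v (fun I => ((n.factorial : ℕ) : k)⁻¹ • asymm G I) J =
        ((n.factorial : ℕ) : k)⁻¹ • ∑ j, v j * asymm G (Fin.cons j J) := by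
      rw [dk, Finset.smul_sum]
      exact Finset.sum_congr rfl fun j _ => mul_smul_comm _ _ _
    rw [h2, h1, natCast_zsmul, ← Nat.cast_smul_eq_nsmul k, smul_smul, inv_mul_cancel₀ hfac,
      one_smul]

end Pool.Agent.MPd118f9
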