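import Mathlib
import Pool.Agent.Lib.MP_d118f9_ag.Defs
import Pool.Agent.Lib.MP_d118f9_ag.K.KAsym

/-!
# MP_d118f9_ag: antisymmetrisation (AS)
-/

set_option autoImplicit false

noncomputable section

open Classical

namespace Pool.Agent.MPd118f9

/-- Antisymmetrisation. -/
def asym {ι M : Type} [AddCommGroup M] {n : ℕ} (G : (Fin n → ι) → M) (I : Fin n → ι) : M :=
  ∑ σ : Equiv.Perm (Fin n), ((Equiv.Perm.sign σ : ℤˣ) : ℤ) • G (I ∘ σ)

/-- Proof: reindex the sum. -/
theorem alt_asym {ι M : Type} [AddCommGroup M] {n : ℕ} (G : (Fin n → ι) → M) : Alt (asym G) :=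
  alt_asymm G

private theorem as_rot {ι : Type} {n : ℕ} (j : ι) (J : Fin n → ι) :
    (Fin.cons j J : Fin (n + 1) → ι) ∘ (finRotate (n + 1)) =
      Fin.insertNth (α := fun _ => ι) (Fin.last n) j J := by
  funext x
  rw [Function.comp_apply]
  induction x using Fin.lastCases with
  | last => rw [finRotate_last, Fin.cons_zero, Fin.insertNth_apply_same]
  | cast x =>
    have h1 : finRotate (n + 1) x.castSucc = x.succ := finRotate_of_lt x.isLt
    rw [Fin.insertNth_last', Fin.snoc_castSucc, h1]
    exact Fin.cons_succ (α := fun _ => ι) j J x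

private theorem as_update {ι : Type} {n : ℕ} (l : Fin n) (j : ι) (I : Fin (n + 1) → ι) :
    Function.update I l.succ j ∘ (finRotate (n + 1)) =
      Fin.insertNth (α := fun _ => ι) l.castSucc j
        (Fin.removeNth l.castSucc (I ∘ finRotate (n + 1))) := by
  have h1 : finRotate (n + 1) l.castSucc = l.succ := finRotate_of_lt l.isLt
  rw [Fin.insertNth_removeNth]
  funext x
  by_cases hx : x = l.castSucc
  · rw [hx, Function.comp_apply, h1, Function.update_self, Function.update_self]
  · rw [Function.comp_apply, Function.update_of_ne hx, Function.update_of_ne, Function.comp_apply]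
    intro h2
    exact hx ((finRotate (n + 1)).injective (h2.trans h1.symm))

/-- **AS.**  Let all contractions of `G` vanish, except the last one, which is the alternating
function `F`.  Then the contraction of the antisymmetrisation of `G` is `(-1)^n n! F`.
Proof: in `∑ j, v j • asym G (Fin.cons j J)` the summand of `σ` is the contraction of `G` in the
place `σ⁻¹ 0` of `J ∘ …`; it vanishes unless `σ (Fin.last n) = 0`, that is `σ = finRotate (n + 1)
* τ`
with `τ` fixing `Fin.last n` (`Equiv.Perm.decomposeFin` or `Equiv.Perm.viaFintypeEmbedding` or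
a direct bijection with `Perm (Fin n)`); then it is
`(-1)^n (sign τ) • F (J ∘ τ) = (-1)^n • F J`. -/
theorem contr_asym {ι A M : Type} [Fintype ι] [CommRing A] [AddCommGroup M] [Module A M]
    (v : ι → A) {n : ℕ} (G : (Fin (n + 1) → ι) → M) (F : (Fin n → ι) → M) (hF : Alt F)
    (h0 : ∀ l : Fin (n + 1), l ≠ Fin.last n → ∀ J : Fin n → ι,
      ∑ j, v j • G (Fin.insertNth (α := fun _ => ι) l j J) = 0)
    (h1 : ∀ J : Fin n → ι, ∑ j, v j • G (Fin.insertNth (α := fun _ => ι) (Fin.last n) j J) = F J)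
    (J : Fin n → ι) :
    ∑ j, v j • asym G (Fin.cons j J : Fin (n + 1) → ι) = ((-1) ^ n * (n.factorial : ℤ)) • F J := by
  classical
  set ρ : Equiv.Perm (Fin (n + 1)) := finRotate (n + 1) with hρ
  have hs : ((Equiv.Perm.sign ρ : ℤˣ) : ℤ) = (-1) ^ n := by
    rw [hρ, sign_finRotate]
    simp
  have k1 : ∀ (l : Fin n) (I : Fin (n + 1) → ι),
      ∑ j, (DistribSMul.toAddMonoidHom M (v j)) (G (Function.update I l.succ j ∘ ρ)) = 0 := by
    intro l I
    rw [← h0 l.castSucc (Fin.castSucc_lt_last l).ne (Fin.removeNth l.castSucc (I ∘ ρ))]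
    refine Finset.sum_congr rfl fun j _ => ?_
    rw [hρ, as_update l j I]
    rfl
  have k2 : ∀ J, ∑ j, (DistribSMul.toAddMonoidHom M (v j)) (G ((Fin.cons j J) ∘ ρ)) = F J := by
    intro J
    rw [← h1 J]
    refine Finset.sum_congr rfl fun j _ => ?_
    rw [hρ, as_rot j J]
    rfl
  have k3 := sum_asymm (fun j => DistribSMul.toAddMonoidHom M (v j)) (fun I => G (I ∘ ρ)) k1 hF
    k2 J
  have k4 : ∀ I, asymm (fun I => G (I ∘ ρ)) I = ((-1) ^ n : ℤ) • asym G I := by
    intro I
    rw [asymm, asym, Finset.smul_sum, ← hs]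
    refine Fintype.sum_equiv (Equiv.mulRight ρ) _ _ fun σ => ?_
    rw [Equiv.coe_mulRight, Equiv.Perm.sign_mul, Units.val_mul, mul_comm, ← mul_smul, ← mul_assoc,
      ← Units.val_mul, Int.units_mul_self, Units.val_one, one_mul]
    rfl
  have k5 : ∑ j, (DistribSMul.toAddMonoidHom M (v j))
      (asymm (fun I => G (I ∘ ρ)) (Fin.cons j J)) =
      ((-1) ^ n : ℤ) • ∑ j, v j • asym G (Fin.cons j J : Fin (n + 1) → ι) := by
    rw [Finset.smul_sum]
    refine Finset.sum_congr rfl fun j _ => ?_
    rw [k4, map_zsmul]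
    rfl
  rw [k5] at k3
  rw [mul_smul, ← k3, smul_smul, ← mul_pow]
  norm_num

end Pool.Agent.MPd118f9
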