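import Pool.Agent.Lib.MP_d118f9_ag.Iface1

/-!
# MP_d118f9_ag, block K: coordinates of a double cover
-/

set_option autoImplicit false

noncomputable section

namespace Pool.Agent.MPd118f9

/-- The data of a double cover `K / F` in coordinates: `K = F ⊕ F y`, `y ^ 2 = s`, the divisor `A`
on `F` and the canonical divisor `WK` on `K` (the pull back of `A`), `W` a divisor on `F` (the
canonical one). -/
structure DC {k F K : Type} [Field k] [Field F] [Field K] [Algebra k F] [Algebra k K]
    [Algebra F K] (y : K) (s : F) (A W : Dv k F) (WK : Dv k K) : Prop where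
  sq : y ^ 2 = algebraMap F K s
  span : ∀ x : K, ∃ f g : F, x = algebraMap F K f + algebraMap F K g * y
  not_mem : ∀ f : F, y ≠ algebraMap F K f
  mem : ∀ (m : ℕ) (f g : F), algebraMap F K f + algebraMap F K g * y ∈ L (m • WK) ↔
    f ∈ L (m • A) ∧ g ∈ L (((m : ℤ) - 1) • A + W)
  s_mem : s ∈ L (2 • (A - W))

section

variable {k F K : Type} [Field k] [IsAlgClosed k] [CharZero k] [Field F] [Field K] [Algebra k F]
  [Algebra k K] [Algebra F K] [IsScalarTower k F K] {y : K} {s : F} {A W : Dv k F} {WK : Dv k K}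

/-- Coordinates are unique. -/
theorem DC.ext (h : DC y s A W WK) {f g f' g' : F}
    (he : algebraMap F K f + algebraMap F K g * y = algebraMap F K f' + algebraMap F K g' * y) :
    f = f' ∧ g = g' := by
  have h1 : algebraMap F K (g - g') * y = algebraMap F K (f' - f) := by
    rw [map_sub, map_sub]
    linear_combination he
  have hg : g = g' := by
    by_contra hne
    have h2 : algebraMap F K (g - g') ≠ 0 :=
      (map_ne_zero_iff _ (algebraMap F K).injective).2 (sub_ne_zero.2 hne)
    apply h.not_mem ((f' - f) / (g - g'))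
    rw [map_div₀, eq_div_iff h2, mul_comm]
    exact h1
  refine ⟨?_, hg⟩
  rw [hg, sub_self, map_zero, zero_mul] at h1
  have h3 : f' - f = 0 := (map_eq_zero_iff _ (algebraMap F K).injective).1 h1.symm
  exact (sub_eq_zero.1 h3).symm

/-- The coordinate functions. -/
theorem DC.exists_coord (h : DC y s A W WK) :
    ∃ π₀ π₁ : K →ₗ[F] F, ∀ x : K, x = algebraMap F K (π₀ x) + algebraMap F K (π₁ x) * y := by
  choose p q hpq using h.span
  have hadd : ∀ x x' : K, p (x + x') = p x + p x' ∧ q (x + x') = q x + q x' := by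
    intro x x'
    refine h.ext ?_
    rw [← hpq (x + x'), map_add, map_add]
    nth_rewrite 1 [hpq x, hpq x']
    ring
  have hsmul : ∀ (c : F) (x : K), p (c • x) = c • p x ∧ q (c • x) = c • q x := by
    intro c x
    refine h.ext ?_
    rw [← hpq (c • x), smul_eq_mul, smul_eq_mul, map_mul, map_mul, Algebra.smul_def]
    nth_rewrite 1 [hpq x]
    ring
  exact ⟨{ toFun := p, map_add' := fun x x' => (hadd x x').1, map_smul' := fun c x =>
    (hsmul c x).1 }, { toFun := q, map_add' := fun x x' => (hadd x x').2, map_smul' := fun c x =>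
    (hsmul c x).2 }, hpq⟩

/-- The basis `a_1, …, a_r, w_1 y, …, w_h y` of `L(WK)`.

Proof. `DC.mem` for `m = 1` (`L (1 • WK)`, `1 • A`, `(1 - 1) • A + W = W`). -/
theorem DC.exists_basis (h : DC y s A W WK) {r g : ℕ} (a : Module.Basis (Fin r) k (L A))
    (w : Module.Basis (Fin g) k (L W)) :
    ∃ v : Module.Basis (Fin r ⊕ Fin g) k (L WK),
      (∀ j, (v (Sum.inl j) : K) = algebraMap F K (a j)) ∧
        ∀ l, (v (Sum.inr l) : K) = algebraMap F K (w l) * y := by
  have hmem : ∀ f g : F, algebraMap F K f + algebraMap F K g * y ∈ L WK ↔ f ∈ L A ∧ g ∈ L W := by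
    intro f g
    have h1 := h.mem 1 f g
    simpa only [one_smul, Nat.cast_one, sub_self, zero_smul, zero_add] using h1
  let ι : F →ₗ[k] K := (IsScalarTower.toAlgHom k F K).toLinearMap
  have hι : ∀ f, ι f = algebraMap F K f := fun f => rfl
  let ψ : (L A × L W) →ₗ[k] K :=
    ι ∘ₗ (L A).subtype ∘ₗ LinearMap.fst k (L A) (L W) +
      (LinearMap.mulRight k y) ∘ₗ ι ∘ₗ (L W).subtype ∘ₗ LinearMap.snd k (L A) (L W)
  have hψ : ∀ z : L A × L W, ψ z = algebraMap F K z.1 + algebraMap F K z.2 * y := fun z => rfl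
  have hψm : ∀ z : L A × L W, ψ z ∈ L WK := fun z => by
    rw [hψ]
    exact (hmem _ _).2 ⟨z.1.2, z.2.2⟩
  let φ : (L A × L W) →ₗ[k] L WK := ψ.codRestrict (L WK) hψm
  have hφ : ∀ z, ((φ z : L WK) : K) = algebraMap F K z.1 + algebraMap F K z.2 * y := fun z => rfl
  have hbij : Function.Bijective φ := by
    constructor
    · intro z z' hz
      have h1 := congrArg (fun x : L WK => (x : K)) hz
      simp only [hφ] at h1
      obtain ⟨h2, h3⟩ := h.ext h1
      exact Prod.ext (Subtype.ext h2) (Subtype.ext h3)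
    · rintro ⟨x, hx⟩
      obtain ⟨f, g, hfg⟩ := h.span x
      rw [hfg] at hx
      obtain ⟨hf, hg⟩ := (hmem f g).1 hx
      exact ⟨(⟨f, hf⟩, ⟨g, hg⟩), Subtype.ext hfg.symm⟩
  let e : (L A × L W) ≃ₗ[k] L WK := LinearEquiv.ofBijective φ hbij
  refine ⟨(a.prod w).map e, ?_, ?_⟩
  · intro j
    have h1 : ((a.prod w).map e (Sum.inl j) : K) =
        algebraMap F K ((a.prod w (Sum.inl j)).1 : F) +
          algebraMap F K ((a.prod w (Sum.inl j)).2 : F) * y := rfl
    rw [h1]
    simp
  · intro l
    have h1 : ((a.prod w).map e (Sum.inr l) : K) =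
        algebraMap F K ((a.prod w (Sum.inr l)).1 : F) +
          algebraMap F K ((a.prod w (Sum.inr l)).2 : F) * y := rfl
    rw [h1]
    simp

end

end Pool.Agent.MPd118f9
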