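import Pool.Agent.Lib.MP_d118f9_ag.K.KDefs

/-!
# MP_d118f9_ag, block K: elementary facts on alternating functions and the differentials
-/

set_option autoImplicit false

noncomputable section

namespace Pool.Agent.MPd118f9

section

variable {ι M M' : Type} [AddCommGroup M] [AddCommGroup M'] {n : ℕ}

theorem alt_zero : Alt (fun _ : Fin n → ι => (0 : M)) := by
  intro σ I
  rw [smul_zero]

theorem alt_add {c c' : (Fin n → ι) → M} (h : Alt c) (h' : Alt c') : Alt fun I => c I + c' I := by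
  intro σ I
  show c (I ∘ σ) + c' (I ∘ σ) = _
  rw [h σ I, h' σ I, smul_add]

theorem alt_sub {c c' : (Fin n → ι) → M} (h : Alt c) (h' : Alt c') : Alt fun I => c I - c' I := by
  intro σ I
  show c (I ∘ σ) - c' (I ∘ σ) = _
  rw [h σ I, h' σ I, smul_sub]

theorem alt_sum {κ : Type} {s : Finset κ} {c : κ → (Fin n → ι) → M} (h : ∀ x ∈ s, Alt (c x)) :
    Alt fun I => ∑ x ∈ s, c x I := by
  intro σ I
  show ∑ x ∈ s, c x (I ∘ σ) = _
  rw [Finset.smul_sum]
  exact Finset.sum_congr rfl fun x hx => h x hx σ I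

theorem alt_hom {c : (Fin n → ι) → M} (h : Alt c) (φ : M →+ M') : Alt fun I => φ (c I) := by
  intro σ I
  show φ (c (I ∘ σ)) = _
  rw [h σ I, map_zsmul]

theorem alt_mul {A : Type} [CommRing A] {c : (Fin n → ι) → A} (h : Alt c) (a : A) :
    Alt fun I => a * c I := alt_hom h (AddMonoidHom.mulLeft a)

/-- Injections of the index set. -/
theorem alt_comp {κ : Type} {c : (Fin n → ι) → M} (h : Alt c) (φ : κ → ι) :
    Alt fun I : Fin n → κ => c (φ ∘ I) := by
  intro σ I
  exact h σ (φ ∘ I)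

/-- Proof. Extend a permutation `σ` of `Fin n` to `Fin (n + 1)` by `0 ↦ 0`
(`Equiv.Perm.decomposeFin.symm (0, σ)`, `Equiv.Perm.decomposeFin.symm_sign`, or
`Equiv.Perm.sign_...` for `Equiv.optionCongr` / `finSuccEquiv`): the sign is the same, and
`Fin.cons x I ∘ (extension) = Fin.cons x (I ∘ σ)`. -/
theorem alt_cons {c : (Fin (n + 1) → ι) → M} (h : Alt c) (x : ι) :
    Alt fun I : Fin n → ι => c (Fin.cons x I) := by
  intro σ I
  have h1 := h (Equiv.Perm.decomposeFin.symm (0, σ)) (Fin.cons x I)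
  rw [Equiv.Perm.decomposeFin.symm_sign, if_pos rfl, one_mul] at h1
  rw [← h1]
  show c (Fin.cons x (I ∘ σ)) = _
  congr 1
  funext k
  induction k using Fin.cases with
  | zero => simp
  | succ k => simp

/-- Proof. The transposition `Equiv.swap 0 1` of `Fin (n + 2)`. -/
theorem alt_swap {c : (Fin (n + 2) → ι) → M} (h : Alt c) (x x' : ι) (I : Fin n → ι) :
    c (Fin.cons x (Fin.cons x' I)) = -c (Fin.cons x' (Fin.cons x I)) := by
  have h1 := h (Equiv.swap 0 1) (Fin.cons x' (Fin.cons x I))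
  have h01 : (0 : Fin (n + 2)) ≠ 1 := by simp
  rw [Equiv.Perm.sign_swap h01] at h1
  have h2 : (Fin.cons x' (Fin.cons x I) : Fin (n + 2) → ι) ∘ (Equiv.swap (0 : Fin (n + 2)) 1) =
      Fin.cons x (Fin.cons x' I) := by
    funext k
    rw [Function.comp_apply]
    induction k using Fin.cases with
    | zero =>
      rw [Equiv.swap_apply_left, Fin.cons_zero, ← Fin.succ_zero_eq_one, Fin.cons_succ,
        Fin.cons_zero]
    | succ k =>
      rw [Fin.cons_succ]
      induction k using Fin.cases with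
      | zero =>
        rw [Fin.succ_zero_eq_one, Equiv.swap_apply_right, Fin.cons_zero, Fin.cons_zero]
      | succ k =>
        have h1k : k.succ.succ ≠ (1 : Fin (n + 2)) := by
          rw [← Fin.succ_zero_eq_one]
          exact fun h => Fin.succ_ne_zero _ (Fin.succ_injective _ h)
        rw [Equiv.swap_apply_of_ne_of_ne (Fin.succ_ne_zero _) h1k, Fin.cons_succ, Fin.cons_succ,
          Fin.cons_succ]
  rw [h2] at h1
  rw [h1]
  simp

end

section

variable {ι X Y F : Type} [Fintype ι] [Fintype X] [Fintype Y] [Field F] {n : ℕ}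

theorem alt_dk {c : (Fin (n + 1) → ι) → F} (h : Alt c) (v : ι → F) : Alt (dk v c) :=
  alt_sum fun j _ => alt_mul (alt_cons h j) (v j)

theorem alt_dA {c : (Fin (n + 1) → X ⊕ Y) → F} (h : Alt c) (a : X → F) : Alt (dA a c) :=
  alt_sum fun j _ => alt_mul (alt_cons h (Sum.inl j)) (a j)

theorem alt_dW {c : (Fin (n + 1) → X ⊕ Y) → F} (h : Alt c) (w : Y → F) : Alt (dW w c) :=
  alt_sum fun l _ => alt_mul (alt_cons h (Sum.inr l)) (w l)

theorem dk_elim (a : X → F) (w : Y → F) (c : (Fin (n + 1) → X ⊕ Y) → F) (I : Fin n → X ⊕ Y) :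
    dk (Sum.elim a w) c I = dA a c I + dW w c I := by
  simp only [dk, dA, dW, Fintype.sum_sum_type, Sum.elim_inl, Sum.elim_inr]

private theorem swap_sums {S T : Type} [Fintype S] [Fintype T]
    {c : (Fin (n + 2) → ι) → F} (h : Alt c) (p : S → F) (q : T → F) (e : S → ι) (g : T → ι)
    (I : Fin n → ι) :
    ∑ j, p j * ∑ l, q l * c (Fin.cons (g l) (Fin.cons (e j) I)) =
      -∑ l, q l * ∑ j, p j * c (Fin.cons (e j) (Fin.cons (g l) I)) := by
  simp only [Finset.mul_sum]
  rw [Finset.sum_comm, ← Finset.sum_neg_distrib]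
  refine Finset.sum_congr rfl fun l _ => ?_
  rw [← Finset.sum_neg_distrib]
  refine Finset.sum_congr rfl fun j _ => ?_
  rw [alt_swap h (g l) (e j) I]
  ring

/-- Proof. `alt_swap` and exchange of the sums. -/
theorem dA_dW {c : (Fin (n + 2) → X ⊕ Y) → F} (h : Alt c) (a : X → F) (w : Y → F)
    (I : Fin n → X ⊕ Y) : dA a (dW w c) I = -dW w (dA a c) I :=
  swap_sums h a w Sum.inl Sum.inr I

theorem dA_add (a : X → F) (c c' : (Fin (n + 1) → X ⊕ Y) → F) (I : Fin n → X ⊕ Y) :
    dA a (fun K => c K + c' K) I = dA a c I + dA a c' I := by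
  simp only [dA, mul_add, Finset.sum_add_distrib]

theorem dW_add (w : Y → F) (c c' : (Fin (n + 1) → X ⊕ Y) → F) (I : Fin n → X ⊕ Y) :
    dW w (fun K => c K + c' K) I = dW w c I + dW w c' I := by
  simp only [dW, mul_add, Finset.sum_add_distrib]

theorem dA_sub (a : X → F) (c c' : (Fin (n + 1) → X ⊕ Y) → F) (I : Fin n → X ⊕ Y) :
    dA a (fun K => c K - c' K) I = dA a c I - dA a c' I := by
  simp only [dA, mul_sub, Finset.sum_sub_distrib]

theorem dW_sub (w : Y → F) (c c' : (Fin (n + 1) → X ⊕ Y) → F) (I : Fin n → X ⊕ Y) :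
    dW w (fun K => c K - c' K) I = dW w c I - dW w c' I := by
  simp only [dW, mul_sub, Finset.sum_sub_distrib]

theorem dA_mul (a : X → F) (s : F) (c : (Fin (n + 1) → X ⊕ Y) → F) (I : Fin n → X ⊕ Y) :
    dA a (fun K => s * c K) I = s * dA a c I := by
  simp only [dA, Finset.mul_sum]
  exact Finset.sum_congr rfl fun j _ => mul_left_comm _ _ _

theorem dW_mul (w : Y → F) (s : F) (c : (Fin (n + 1) → X ⊕ Y) → F) (I : Fin n → X ⊕ Y) :
    dW w (fun K => s * c K) I = s * dW w c I := by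
  simp only [dW, Finset.mul_sum]
  exact Finset.sum_congr rfl fun j _ => mul_left_comm _ _ _

variable [CharZero F]

/-- Proof. `S = ∑ j, ∑ l, v_j v_l c (l, j, I)` satisfies `S = -S` (`alt_swap`, exchange of the
sums). -/
theorem dk_dk {c : (Fin (n + 2) → ι) → F} (h : Alt c) (v : ι → F) (I : Fin n → ι) :
    dk v (dk v c) I = 0 :=
  self_eq_neg.1 (swap_sums h v v id id I)

theorem isCyc_dk {c : (Fin (n + 1) → ι) → F} (h : Alt c) (v : ι → F) : IsCyc v (dk v c) := by
  cases n with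
  | zero => exact trivial
  | succ n => exact fun J => dk_dk h v J

theorem dA_dA {c : (Fin (n + 2) → X ⊕ Y) → F} (h : Alt c) (a : X → F) (I : Fin n → X ⊕ Y) :
    dA a (dA a c) I = 0 :=
  self_eq_neg.1 (swap_sums h a a Sum.inl Sum.inl I)

theorem dW_dW {c : (Fin (n + 2) → X ⊕ Y) → F} (h : Alt c) (w : Y → F) (I : Fin n → X ⊕ Y) :
    dW w (dW w c) I = 0 :=
  self_eq_neg.1 (swap_sums h w w Sum.inr Sum.inr I)

end

end Pool.Agent.MPd118f9
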