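import Pool.Agent.Lib.MP_d118f9_ag.K.KAsym

/-!
# MP_d118f9_ag, block K: antisymmetrisation, the last slot
-/

set_option autoImplicit false

noncomputable section

namespace Pool.Agent.MPd118f9

private theorem KAsymB_rot {n : ℕ} (l : Fin n) :
    finRotate (n + 1) l.castSucc = l.succ := by
  rw [finRotate_apply]
  exact Fin.coeSucc_eq_succ

private theorem KAsymB_rotate {M ι : Type} [AddCommGroup M] {n : ℕ}
    (G : (Fin (n + 1) → ι) → M) (I : Fin (n + 1) → ι) :
    asymm (fun I => G (I ∘ finRotate (n + 1))) I = ((-1) ^ n : ℤ) • asymm G I := by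
  rw [asymm, asymm, Finset.smul_sum]
  refine Fintype.sum_equiv (Equiv.mulRight (finRotate (n + 1))) _ _ fun σ => ?_
  have h1 : (I ∘ σ) ∘ finRotate (n + 1) =
      I ∘ (σ * finRotate (n + 1) : Equiv.Perm (Fin (n + 1))) := rfl
  rw [Equiv.coe_mulRight, h1, map_mul, sign_finRotate, smul_smul]
  congr 1
  rw [Units.val_mul, Units.val_pow_eq_pow_val, Units.val_neg, Units.val_one, mul_left_comm,
    Nat.add_sub_cancel,
    ← mul_pow, neg_one_mul, neg_neg, one_pow, mul_one]

/-- The antisymmetrisation lemma for a function whose contraction in the last slot is `F`.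

Proof. Apply `sum_asymm` (with `φ j` = multiplication by `v j`) to
`fun I => G (I ∘ finRotate (n + 1))` =: `G1`:
`cons j J ∘ finRotate = (Fin.last n).insertNth j J`, the slot `l.succ` of `G1` is the slot
`l.castSucc` of `G` (write `I ∘ finRotate` as `insertNth` with `update`), and
`asymm G1 = sign (finRotate (n + 1)) • asymm G` with `sign_finRotate`: `(-1) ^ n`. -/
theorem sum_asymm_last {A M ι : Type} [CommRing A] [AddCommGroup M] [Module A M] [Fintype ι]
    {n : ℕ} (v : ι → A) (G : (Fin (n + 1) → ι) → M) {F : (Fin n → ι) → M} (hF : Alt F)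
    (h0 : ∀ l : Fin (n + 1), l ≠ Fin.last n → ∀ J : Fin n → ι,
      ∑ j, v j • G (l.insertNth j J) = 0)
    (h1 : ∀ J : Fin n → ι, ∑ j, v j • G ((Fin.last n).insertNth j J) = F J) (J : Fin n → ι) :
    ∑ j, v j • asymm G (Fin.cons j J) = ((-1) ^ n * (n.factorial : ℤ)) • F J := by
  classical
  have hslot : ∀ (l : Fin n) (I : Fin (n + 1) → ι),
      ∑ j, (DistribSMul.toAddMonoidHom M (v j))
        (G (Function.update I l.succ j ∘ finRotate (n + 1))) = 0 := by
    intro l I
    rw [← h0 l.castSucc (Fin.castSucc_lt_last l).ne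
      (Fin.removeNth l.castSucc (I ∘ finRotate (n + 1)))]
    refine Finset.sum_congr rfl fun j _ => ?_
    show v j • G (Function.update I l.succ j ∘ finRotate (n + 1)) = _
    congr 2
    rw [Fin.insertNth_removeNth]
    funext y
    by_cases hy : y = l.castSucc
    · rw [hy, Function.update_self, Function.comp_apply, KAsymB_rot, Function.update_self]
    · have hne : finRotate (n + 1) y ≠ l.succ := by
        intro h
        rw [← KAsymB_rot l] at h
        exact hy ((finRotate (n + 1)).injective h)
      rw [Function.update_of_ne hy, Function.comp_apply, Function.update_of_ne hne,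
        Function.comp_apply]
  have hlast : ∀ J : Fin n → ι, ∑ j, (DistribSMul.toAddMonoidHom M (v j))
      (G ((Fin.cons j J : Fin (n + 1) → ι) ∘ finRotate (n + 1))) = F J := by
    intro J
    rw [← h1 J]
    refine Finset.sum_congr rfl fun j _ => ?_
    show v j • G ((Fin.cons j J : Fin (n + 1) → ι) ∘ finRotate (n + 1)) = _
    congr 2
    funext y
    rw [Function.comp_apply]
    induction y using Fin.lastCases with
    | last => rw [finRotate_last, Fin.cons_zero, Fin.insertNth_apply_same]
    | cast y =>
      rw [KAsymB_rot, Fin.cons_succ, Fin.insertNth_last', Fin.snoc_castSucc]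
  have hmain := sum_asymm (fun j => DistribSMul.toAddMonoidHom M (v j))
    (fun I => G (I ∘ finRotate (n + 1))) hslot hF hlast J
  have hs : ∀ j, (DistribSMul.toAddMonoidHom M (v j))
      (asymm (fun I => G (I ∘ finRotate (n + 1))) (Fin.cons j J)) =
      ((-1) ^ n : ℤ) • (v j • asymm G (Fin.cons j J)) := by
    intro j
    show v j • asymm (fun I => G (I ∘ finRotate (n + 1))) (Fin.cons j J) = _
    rw [KAsymB_rotate, smul_comm]
  rw [Finset.sum_congr rfl fun j _ => hs j, ← Finset.smul_sum] at hmain
  have h2 := congrArg (fun x => ((-1) ^ n : ℤ) • x) hmain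
  simp only [smul_smul] at h2
  rw [← mul_pow, neg_one_mul, neg_neg, one_pow, one_smul] at h2
  exact h2

end Pool.Agent.MPd118f9
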