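import Pool.Agent.Lib.MP_d118f9_ag.K.KDefs

/-!
# MP_d118f9_ag, block K: exactness does not depend on the basis
-/

set_option autoImplicit false

noncomputable section

namespace Pool.Agent.MPd118f9

/-- The change of the index set by a matrix `P`: `c ↦ c'`, `c' I' = ∑ I, (∏ x, P (I x) (I' x)) c I`
(if `c` stands for `∑ I, c I v_I` and `v_j = ∑ j', P j j' v'_j'` then `c'` stands for the same
tensor). -/
def chg {k A ι ι' : Type} [Field k] [CommRing A] [Algebra k A] [Fintype ι] (P : ι → ι' → k)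
    {n : ℕ} (c : (Fin n → ι) → A) : (Fin n → ι') → A :=
  fun I' => ∑ I : Fin n → ι, (∏ x, P (I x) (I' x)) • c I

section

variable {k A ι ι' : Type} [Field k] [CommRing A] [Algebra k A] [Fintype ι] [Fintype ι']
  {n : ℕ}

/-- Proof. Reindex the sum by `I ↦ I ∘ σ`, and `∏ x, P (I (σ x)) (I' (σ x)) = ∏ x, P (I x) (I' x)`
(`Equiv.prod_comp`). -/
theorem alt_chg (P : ι → ι' → k) {c : (Fin n → ι) → A} (h : Alt c) : Alt (chg P c) := by
  intro σ I'
  rw [chg, chg, Finset.smul_sum]
  refine Fintype.sum_equiv (σ.arrowCongr (Equiv.refl ι)) _ _ fun I => ?_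
  have e1 : (σ.arrowCongr (Equiv.refl ι)) I = I ∘ σ.symm := rfl
  have e2 := h σ (I ∘ σ.symm)
  have e3 : (I ∘ σ.symm) ∘ σ = I := by
    funext x
    simp
  rw [e3] at e2
  have e4 : ∏ x, P (I x) ((I' ∘ σ) x) = ∏ x, P ((I ∘ σ.symm) x) (I' x) := by
    rw [← Equiv.prod_comp σ (fun x => P ((I ∘ σ.symm) x) (I' x))]
    simp
  rw [e1, e4, e2]
  exact smul_comm _ _ _

theorem chg_mem (P : ι → ι' → k) {N : Submodule k A} {c : (Fin n → ι) → A} (h : ∀ I, c I ∈ N)
    (I' : Fin n → ι') : chg P c I' ∈ N :=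
  N.sum_mem fun _ _ => N.smul_mem _ (h _)

/-- Proof. With `v_j = ∑ j', P j j' v'_j'`:
`chg P (dk v c) I' = ∑ I, ∑ j, ∑ j', (∏ x, P (I x) (I' x)) P j j' v'_j' c (j, I)`
and the sum over all `(j, I)` is the sum over `Fin (n + 1) → ι`
(`Fin.consEquiv` or `Fin.insertNthEquiv`, `Fin.prod_univ_succ`). -/
theorem chg_dk (P : ι → ι' → k) {v : ι → A} {v' : ι' → A} (hv : ∀ j, v j = ∑ j', P j j' • v' j')
    (c : (Fin (n + 1) → ι) → A) (I' : Fin n → ι') :
    chg P (dk v c) I' = dk v' (chg P c) I' := by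
  have e1 : chg P (dk v c) I' = ∑ I : Fin n → ι, ∑ j, ∑ j',
      (P j j' * ∏ x, P (I x) (I' x)) • (v' j' * c (Fin.cons j I)) := by
    refine Finset.sum_congr rfl fun I _ => ?_
    rw [dk, Finset.smul_sum]
    refine Finset.sum_congr rfl fun j _ => ?_
    rw [hv j, Finset.sum_mul, Finset.smul_sum]
    refine Finset.sum_congr rfl fun j' _ => ?_
    rw [smul_mul_assoc, smul_smul, mul_comm (∏ x, P (I x) (I' x))]
  have e2 : dk v' (chg P c) I' = ∑ j', ∑ j, ∑ I : Fin n → ι,
      (P j j' * ∏ x, P (I x) (I' x)) • (v' j' * c (Fin.cons j I)) := by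
    refine Finset.sum_congr rfl fun j' _ => ?_
    rw [chg, Finset.mul_sum, ← (Fin.consEquiv fun _ => ι).sum_comp, Fintype.sum_prod_type]
    refine Finset.sum_congr rfl fun j _ => Finset.sum_congr rfl fun I _ => ?_
    rw [mul_smul_comm, Fin.prod_univ_succ]
    simp [Fin.consEquiv]
  rw [e1, e2, Finset.sum_comm]
  rw [Finset.sum_comm (s := Finset.univ (α := ι'))]
  refine Finset.sum_congr rfl fun j _ => ?_
  exact Finset.sum_comm

/-- Proof. `∑ I', (∏ x, P (I x) (I' x)) (∏ x, Q (I' x) (I'' x)) = ∏ x, ∑ j', P (I x) j' Q j' (I'' x)`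
(`Finset.prod_univ_sum` or `Fintype.piFinset`, `Finset.prod_sum`), which is `1` if `I = I''` and `0`
otherwise. -/
theorem chg_chg [DecidableEq ι] (P : ι → ι' → k) (Q : ι' → ι → k)
    (hPQ : ∀ j l, ∑ j', P j j' * Q j' l = if j = l then 1 else 0) (c : (Fin n → ι) → A)
    (I : Fin n → ι) : chg Q (chg P c) I = c I := by
  have e1 : chg Q (chg P c) I = ∑ K : Fin n → ι,
      (∑ I' : Fin n → ι', ∏ x, (P (K x) (I' x) * Q (I' x) (I x))) • c K := by
    have e2 : chg Q (chg P c) I = ∑ I' : Fin n → ι', ∑ K : Fin n → ι,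
        (∏ x, (P (K x) (I' x) * Q (I' x) (I x))) • c K := by
      refine Finset.sum_congr rfl fun I' _ => ?_
      rw [chg, Finset.smul_sum]
      refine Finset.sum_congr rfl fun K _ => ?_
      rw [smul_smul, mul_comm, ← Finset.prod_mul_distrib]
    rw [e2, Finset.sum_comm]
    exact Finset.sum_congr rfl fun K _ => (Finset.sum_smul).symm
  have e3 : ∀ K : Fin n → ι, (∑ I' : Fin n → ι', ∏ x, (P (K x) (I' x) * Q (I' x) (I x))) =
      if K = I then 1 else 0 := by
    intro K
    have e4 := Finset.prod_univ_sum (fun _ : Fin n => (Finset.univ : Finset ι'))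
      (fun x j' => P (K x) j' * Q j' (I x))
    rw [Fintype.piFinset_univ] at e4
    rw [← e4]
    simp only [hPQ]
    by_cases hK : K = I
    · rw [if_pos hK]
      exact Finset.prod_eq_one fun x _ => if_pos (congrFun hK x)
    · rw [if_neg hK]
      obtain ⟨x, hx⟩ := Function.ne_iff.1 hK
      exact Finset.prod_eq_zero (Finset.mem_univ x) (if_neg hx)
  rw [e1, Finset.sum_congr rfl fun K _ => by rw [e3 K]]
  simp

/-- Proof. `v j = ∑ j', P j j' v' j'`, `v' j' = ∑ j, Q j' j v j` with `P j j' = v'.repr (v j) j'`,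
`Q j' j = v.repr (v' j') j`. A cycle `c'` for `v'` gives the cycle `c = chg Q c'` for `v`
(`chg_dk`), so `c = dk v b`, and `c' = chg P c = chg P (dk v b) = dk v' (chg P b)`. -/
theorem KE.of_basis {V : Submodule k A} (v : Module.Basis ι k V) (v' : Module.Basis ι' k V)
    {N₀ N₁ : Submodule k A} (h : KE (fun j => (v j : A)) N₀ N₁ n) :
    KE (fun j => (v' j : A)) N₀ N₁ n := by
  classical
  have hP : ∀ j, (v j : A) = ∑ j', v'.repr (v j) j' • (v' j' : A) := by
    intro j
    have h1 : ((∑ j', v'.repr (v j) j' • v' j' : V) : A) = (v j : A) := by rw [v'.sum_repr]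
    rw [Submodule.coe_sum] at h1
    exact h1.symm
  have hQ : ∀ j', (v' j' : A) = ∑ j, v.repr (v' j') j • (v j : A) := by
    intro j'
    have h1 : ((∑ j, v.repr (v' j') j • v j : V) : A) = (v' j' : A) := by rw [v.sum_repr]
    rw [Submodule.coe_sum] at h1
    exact h1.symm
  have hQP : ∀ j' l', ∑ j, v.repr (v' j') j * v'.repr (v j) l' = if j' = l' then 1 else 0 := by
    intro j' l'
    have h1 := congrArg (fun x : V => v'.repr x l') (v.sum_repr (v' j'))
    simp only [map_sum, map_smul, Finsupp.coe_finsetSum, Finset.sum_apply, Finsupp.smul_apply,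
      smul_eq_mul, Module.Basis.repr_self] at h1
    rw [h1, Finsupp.single_apply]
  intro c' hc' hN hcyc
  have hcyc' : IsCyc (fun j => (v j : A)) (chg (fun j' j => v.repr (v' j') j) c') := by
    cases n with
    | zero => exact trivial
    | succ n =>
      intro J
      have h1 := chg_dk (fun j' j => v.repr (v' j') j) (v := fun j => (v' j : A))
        (v' := fun j => (v j : A)) hQ c' J
      have h2 : dk (fun j => (v' j : A)) c' = fun _ => 0 := funext fun K => hcyc K
      rw [h2] at h1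
      have h3 : chg (fun j' j => v.repr (v' j') j) (fun _ => (0 : A)) J = 0 := by
        simp [chg]
      rw [h3] at h1
      exact h1.symm
  obtain ⟨b, hb1, hb2, hb3⟩ := h (chg (fun j' j => v.repr (v' j') j) c')
    (alt_chg _ hc') (chg_mem _ hN) hcyc'
  refine ⟨chg (fun j j' => v'.repr (v j) j') b, alt_chg _ hb1, chg_mem _ hb2, fun I => ?_⟩
  rw [← chg_dk (fun j j' => v'.repr (v j) j') hP b I,
    ← chg_chg (fun j' j => v.repr (v' j') j) (fun j j' => v'.repr (v j) j') hQP c' I]
  congr 1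
  exact funext hb3

end

end Pool.Agent.MPd118f9
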