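import Pool.Agent.Lib.MP_d118f9_ag.Defs

/-!
# MP_d118f9_ag, block K (Koszul complexes in index form): definitions

Text: `/team-store/TEXT_d118f9_DC.md`, sections 0 and 3.  Index sets `X ⊕ Y`: indices `Sum.inl` for
the sections `a_j` of `A`, indices `Sum.inr` for the sections `w_l y`.
-/

set_option autoImplicit false

noncomputable section

namespace Pool.Agent.MPd118f9

section

variable {ι A : Type} [CommRing A] [Fintype ι]

/-- The Koszul differential in index form. -/
def dk (v : ι → A) {i : ℕ} (c : (Fin (i + 1) → ι) → A) : (Fin i → ι) → A :=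
  fun J => ∑ j, v j * c (Fin.cons j J)

/-- Exactness in index form for a family `v` and the spaces `N₀`, `N₁` of values. -/
def KE {k : Type} [Field k] [Algebra k A] (v : ι → A) (N₀ N₁ : Submodule k A) (i : ℕ) : Prop :=
  ∀ c : (Fin i → ι) → A, Alt c → (∀ I, c I ∈ N₁) → IsCyc v c →
    ∃ b : (Fin (i + 1) → ι) → A, Alt b ∧ (∀ I, b I ∈ N₀) ∧ ∀ I, c I = dk v b I

/-- Antisymmetrisation. -/
def asymm {M : Type} [AddCommGroup M] {n : ℕ} (G : (Fin n → ι) → M) : (Fin n → ι) → M :=
  fun I => ∑ σ : Equiv.Perm (Fin n), ((Equiv.Perm.sign σ : ℤˣ) : ℤ) • G (I ∘ σ)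

end

/-- Alternating in both groups of indices. -/
def Alt2 {X Y M : Type} [AddCommGroup M] {m u : ℕ} (f : (Fin m → X) → (Fin u → Y) → M) : Prop :=
  (∀ J, Alt fun I => f I J) ∧ ∀ I, Alt (f I)

section

variable {X Y : Type}

/-- The number of indices of the second kind. -/
def nr {p : ℕ} (I : Fin p → X ⊕ Y) : ℕ := (Finset.univ.filter fun x => (I x).isRight).card

/-- The homogeneous part with `t` indices of the second kind. -/
def part {M : Type} [AddCommGroup M] {p : ℕ} (t : ℕ) (c : (Fin p → X ⊕ Y) → M) :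
    (Fin p → X ⊕ Y) → M :=
  fun I => if nr I = t then c I else 0

/-- The homogeneous part with `t - 1` indices of the second kind (`0` for `t = 0`). -/
def part1 {M : Type} [AddCommGroup M] {p : ℕ} (t : ℕ) (c : (Fin p → X ⊕ Y) → M) :
    (Fin p → X ⊕ Y) → M :=
  fun I => if nr I + 1 = t then c I else 0

variable {A : Type} [CommRing A]

/-- The part of the differential with the first kind of indices. -/
def dA [Fintype X] (a : X → A) {p : ℕ} (c : (Fin (p + 1) → X ⊕ Y) → A) : (Fin p → X ⊕ Y) → A :=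
  fun I => ∑ j, a j * c (Fin.cons (Sum.inl j) I)

/-- The part of the differential with the second kind of indices. -/
def dW [Fintype Y] (w : Y → A) {p : ℕ} (c : (Fin (p + 1) → X ⊕ Y) → A) : (Fin p → X ⊕ Y) → A :=
  fun I => ∑ l, w l * c (Fin.cons (Sum.inr l) I)

/-- `dA c = 0` (no condition for `p = 0`). -/
def CycA [Fintype X] (a : X → A) : ∀ {p : ℕ}, ((Fin p → X ⊕ Y) → A) → Prop
  | 0, _ => True
  | _ + 1, c => ∀ I, dA a c I = 0

/-- The pair `(f, g)` is a cycle for the leading part of the differential (no condition for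
`p = 0`). -/
def Cyc0 [Fintype X] [Fintype Y] (a : X → A) (w : Y → A) :
    ∀ {p : ℕ}, ((Fin p → X ⊕ Y) → A) → ((Fin p → X ⊕ Y) → A) → Prop
  | 0, _, _ => True
  | _ + 1, f, g => (∀ I, dA a f I = 0) ∧ ∀ I, dA a g I + dW w f I = 0

/-- The pair `(f, g)` (standing for `f + g y`, `y ^ 2 = s`) is a cycle (no condition for
`p = 0`). -/
def Cyc1 [Fintype X] [Fintype Y] (a : X → A) (w : Y → A) (s : A) :
    ∀ {p : ℕ}, ((Fin p → X ⊕ Y) → A) → ((Fin p → X ⊕ Y) → A) → Prop
  | 0, _, _ => True
  | _ + 1, f, g => (∀ I, dA a f I + s * dW w g I = 0) ∧ ∀ I, dA a g I + dW w f I = 0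

/-- The statement (MC) of the text, and also (with `f' = 0`) the consequence of (LD) for the
second component: exactness for `g` in two groups of indices. -/
def GX {k : Type} [Field k] [Algebra k A] [Fintype X] [Fintype Y] (a : X → A) (w : Y → A)
    (Pf₀ Pg₀ Pg : Submodule k A) (p : ℕ) : Prop :=
  ∀ m u : ℕ, u + m = p → ∀ g : (Fin m → X) → (Fin u → Y) → A, Alt2 g → (∀ I J, g I J ∈ Pg) →
    (∀ J, IsCyc a fun I => g I J) →
      ∃ (g' : (Fin (m + 1) → X) → (Fin u → Y) → A) (f' : (Fin m → X) → (Fin (u + 1) → Y) → A),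
        Alt2 g' ∧ Alt2 f' ∧ (∀ I J, g' I J ∈ Pg₀) ∧ (∀ I J, f' I J ∈ Pf₀) ∧
          (∀ J, IsCyc a fun I => f' I J) ∧
            ∀ I J, g I J = ∑ j, a j * g' (Fin.cons j I) J + ∑ l, w l * f' I (Fin.cons l J)

/-! ### Positions -/

/-- A new position of the first kind, in front. -/
def eA {m u p : ℕ} (e : Fin m ⊕ Fin u ≃ Fin p) : Fin (m + 1) ⊕ Fin u ≃ Fin (p + 1) where
  toFun := Sum.elim (Fin.cases 0 fun x => (e (Sum.inl x)).succ) fun y => (e (Sum.inr y)).succ
  invFun := Fin.cases (Sum.inl 0) fun z => Sum.map Fin.succ id (e.symm z)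
  left_inv := by
    rintro (x | y)
    · induction x using Fin.cases with
      | zero => rfl
      | succ x => simp
    · simp
  right_inv := by
    intro z
    induction z using Fin.cases with
    | zero => rfl
    | succ z =>
      rcases hz : e.symm z with x | y
      · have h : e (Sum.inl x) = z := by rw [← hz, e.apply_symm_apply]
        simp [hz, h]
      · have h : e (Sum.inr y) = z := by rw [← hz, e.apply_symm_apply]
        simp [hz, h]

/-- A new position of the second kind, in front. -/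
def eW {m u p : ℕ} (e : Fin m ⊕ Fin u ≃ Fin p) : Fin m ⊕ Fin (u + 1) ≃ Fin (p + 1) where
  toFun := Sum.elim (fun x => (e (Sum.inl x)).succ) (Fin.cases 0 fun y => (e (Sum.inr y)).succ)
  invFun := Fin.cases (Sum.inr 0) fun z => Sum.map id Fin.succ (e.symm z)
  left_inv := by
    rintro (x | y)
    · simp
    · induction y using Fin.cases with
      | zero => rfl
      | succ y => simp
  right_inv := by
    intro z
    induction z using Fin.cases with
    | zero => rfl
    | succ z =>
      rcases hz : e.symm z with x | y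
      · have h : e (Sum.inl x) = z := by rw [← hz, e.apply_symm_apply]
        simp [hz, h]
      · have h : e (Sum.inr y) = z := by rw [← hz, e.apply_symm_apply]
        simp [hz, h]

/-- Some bijection of the positions. -/
def ee : ∀ m u : ℕ, Fin m ⊕ Fin u ≃ Fin (u + m)
  | 0, _ => Equiv.emptySum _ _
  | m + 1, u => eA (ee m u)

/-- The function of two groups of indices given by a function on `X ⊕ Y`. -/
def res {M : Type} {m u p : ℕ} (e : Fin m ⊕ Fin u ≃ Fin p) (c : (Fin p → X ⊕ Y) → M) :
    (Fin m → X) → (Fin u → Y) → M :=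
  fun I J => c (Sum.map I J ∘ e.symm)

end

end Pool.Agent.MPd118f9
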