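import Pool.Agent.Lib.MP_d118f9_ag.K.KRes

/-!
# MP_d118f9_ag, block K: from two groups of indices to functions on `X ⊕ Y`
-/

set_option autoImplicit false

noncomputable section

namespace Pool.Agent.MPd118f9

variable {X Y M : Type} [AddCommGroup M] {m u p : ℕ}

/-- Every `K` with `u` indices of the second kind is, after a permutation, of the sorted form.

Proof. The sets `{x | (K x).isRight}` and `e '' range Sum.inr` have the same number `u` of elements,
so there is a permutation `σ` which maps the second to the first (`Equiv.extendSubtype` for an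
equivalence of the two subtypes). Then `K (σ (e (inl x)))` is a left element and
`K (σ (e (inr y)))` a right one; `I`, `J` are their values. -/
theorem exists_sort (e : Fin m ⊕ Fin u ≃ Fin p) (K : Fin p → X ⊕ Y) (h : nr K = u) :
    ∃ (σ : Equiv.Perm (Fin p)) (I : Fin m → X) (J : Fin u → Y), K ∘ σ = Sum.map I J ∘ e.symm := by
  have hc1 : Fintype.card {x // (K x).isRight = true} = u := by
    rw [Fintype.card_subtype]
    exact h
  have hc2 : Fintype.card {x // (e.symm x).isRight = true} = u := by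
    rw [Fintype.card_subtype]
    have h1 := nr_map e (id : Fin m → Fin m) (id : Fin u → Fin u)
    rw [Sum.map_id_id] at h1
    exact h1
  let g : {x // (e.symm x).isRight = true} ≃ {x // (K x).isRight = true} :=
    Fintype.equivOfCardEq (hc2.trans hc1.symm)
  have hl : ∀ a : Fin m, ∃ i : X, K (g.extendSubtype (e (Sum.inl a))) = Sum.inl i := by
    intro a
    have h1 : ¬ (e.symm (e (Sum.inl a))).isRight = true := by simp
    have h2 := g.extendSubtype_not_mem _ h1
    rcases hK : K (g.extendSubtype (e (Sum.inl a))) with i | j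
    · exact ⟨i, rfl⟩
    · rw [hK] at h2
      exact (h2 rfl).elim
  have hr : ∀ b : Fin u, ∃ j : Y, K (g.extendSubtype (e (Sum.inr b))) = Sum.inr j := by
    intro b
    have h1 : (e.symm (e (Sum.inr b))).isRight = true := by simp
    have h2 := g.extendSubtype_mem _ h1
    rcases hK : K (g.extendSubtype (e (Sum.inr b))) with i | j
    · rw [hK] at h2
      cases h2
    · exact ⟨j, rfl⟩
  choose I hI using hl
  choose J hJ using hr
  refine ⟨g.extendSubtype, I, J, ?_⟩
  funext x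
  obtain ⟨y, rfl⟩ := e.surjective x
  rw [Function.comp_apply, Function.comp_apply, e.symm_apply_apply]
  rcases y with a | b
  · rw [hI a]
    rfl
  · rw [hJ b]
    rfl

/-- Two sorted forms of the same function differ by permutations of the two groups.

Proof. The permutation `e τ e.symm` preserves the left and right positions, so it is
`Equiv.Perm.sumCongr τ₁ τ₂` (`Equiv.Perm.mem_sumCongrHom_range_of_perm_mapsTo_inl`). -/
theorem sorted_unique (e : Fin m ⊕ Fin u ≃ Fin p) {I I' : Fin m → X} {J J' : Fin u → Y}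
    {τ : Equiv.Perm (Fin p)}
    (h : (Sum.map I J ∘ e.symm) ∘ τ = Sum.map I' J' ∘ e.symm) :
    ∃ (τ₁ : Equiv.Perm (Fin m)) (τ₂ : Equiv.Perm (Fin u)), I' = I ∘ τ₁ ∧ J' = J ∘ τ₂ ∧
      Equiv.Perm.sign τ = Equiv.Perm.sign τ₁ * Equiv.Perm.sign τ₂ := by
  obtain ⟨ρ, hρ⟩ : ∃ ρ : Equiv.Perm (Fin m ⊕ Fin u), ρ = (e.trans τ).trans e.symm := ⟨_, rfl⟩
  have hx : ∀ y, Sum.map I J (ρ y) = Sum.map I' J' y := by
    intro y
    have h1 := congrFun h (e y)
    rw [Function.comp_apply, Function.comp_apply, Function.comp_apply, e.symm_apply_apply] at h1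
    rw [hρ]
    exact h1
  have hmem : ρ ∈ (Equiv.Perm.sumCongrHom (Fin m) (Fin u)).range := by
    refine Equiv.Perm.mem_sumCongrHom_range_of_perm_mapsTo_inl ?_
    rintro _ ⟨a, rfl⟩
    have h1 := hx (Sum.inl a)
    rcases hr : ρ (Sum.inl a) with a' | b'
    · exact ⟨a', rfl⟩
    · rw [hr] at h1
      cases h1
  obtain ⟨⟨τ₁, τ₂⟩, hτ⟩ := hmem
  refine ⟨τ₁, τ₂, ?_, ?_, ?_⟩
  · funext a
    have h1 := hx (Sum.inl a)
    rw [← hτ] at h1
    exact (Sum.inl_injective h1).symm
  · funext b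
    have h1 := hx (Sum.inr b)
    rw [← hτ] at h1
    exact (Sum.inr_injective h1).symm
  · have h1 : Equiv.Perm.sign ρ = Equiv.Perm.sign τ := by
      rw [hρ]
      exact Equiv.Perm.sign_trans_trans_symm τ e
    rw [← h1, ← hτ]
    exact Equiv.Perm.sign_sumCongr τ₁ τ₂

private theorem KExt_sign (σ : Equiv.Perm (Fin p)) (x : M)
    (h : ((Equiv.Perm.sign σ : ℤˣ) : ℤ) • x = 0) : x = 0 := by
  rcases Int.units_eq_one_or (Equiv.Perm.sign σ) with h1 | h1
  · rw [h1, Units.val_one, one_smul] at h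
    exact h
  · rw [h1, Units.val_neg, Units.val_one, neg_smul, one_smul, neg_eq_zero] at h
    exact h

/-- An alternating function which is homogeneous of degree `u` is determined by `res`.

Proof. `exists_sort`: `c (K ∘ σ) = sign σ • c K`. -/
theorem eq_zero_of_res (e : Fin m ⊕ Fin u ≃ Fin p) {c : (Fin p → X ⊕ Y) → M} (h : Alt c)
    (hu : ∀ K, nr K ≠ u → c K = 0) (hr : ∀ I J, res e c I J = 0) (K : Fin p → X ⊕ Y) :
    c K = 0 := by
  by_cases hK : nr K = u
  · obtain ⟨σ, I, J, hσ⟩ := exists_sort e K hK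
    have h1 := h σ K
    rw [hσ] at h1
    exact KExt_sign σ _ (h1.symm.trans (hr I J))
  · exact hu K hK

/-- the value of the extension at `K` -/
private def KExt_R (e : Fin m ⊕ Fin u ≃ Fin p) (f : (Fin m → X) → (Fin u → Y) → M)
    (K : Fin p → X ⊕ Y) (v : M) : Prop :=
  ∃ (σ : Equiv.Perm (Fin p)) (I : Fin m → X) (J : Fin u → Y),
    K ∘ σ = Sum.map I J ∘ e.symm ∧ v = ((Equiv.Perm.sign σ : ℤˣ) : ℤ) • f I J

private theorem KExt_R_nr {e : Fin m ⊕ Fin u ≃ Fin p} {f : (Fin m → X) → (Fin u → Y) → M}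
    {K : Fin p → X ⊕ Y} {v : M} (h : KExt_R e f K v) : nr K = u := by
  obtain ⟨σ, I, J, h1, -⟩ := h
  rw [← nr_comp K σ, h1, nr_map]

private theorem KExt_R_unique {e : Fin m ⊕ Fin u ≃ Fin p} {f : (Fin m → X) → (Fin u → Y) → M}
    (hf : Alt2 f) {K : Fin p → X ⊕ Y} {v v' : M} (h : KExt_R e f K v) (h' : KExt_R e f K v') :
    v = v' := by
  obtain ⟨σ, I, J, h1, rfl⟩ := h
  obtain ⟨σ', I', J', h1', rfl⟩ := h'
  have h2 : (Sum.map I J ∘ e.symm) ∘ (σ⁻¹ * σ' : Equiv.Perm (Fin p)) =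
      Sum.map I' J' ∘ e.symm := by
    rw [← h1, ← h1']
    funext x
    simp [Function.comp_apply]
  obtain ⟨τ₁, τ₂, rfl, rfl, hs⟩ := sorted_unique e h2
  have e1 : f (I ∘ τ₁) (J ∘ τ₂) = ((Equiv.Perm.sign τ₁ : ℤˣ) : ℤ) • f I (J ∘ τ₂) :=
    hf.1 (J ∘ τ₂) τ₁ I
  rw [e1, hf.2 I τ₂ J, smul_smul, smul_smul]
  congr 1
  rw [← Units.val_mul, ← Units.val_mul, mul_assoc, ← hs, map_mul, Equiv.Perm.sign_inv]
  rw [mul_comm (Equiv.Perm.sign σ), ← mul_assoc, Int.units_mul_self, one_mul]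

/-- Every function alternating in both groups of indices comes from an alternating function.

Proof. `c K = sign σ • f I J` if `K ∘ σ = Sum.map I J ∘ e.symm` for some `σ, I, J` (chosen), and
`c K = 0` otherwise. By `sorted_unique` the value does not depend on the choice: if also
`K ∘ σ' = Sum.map I' J' ∘ e.symm` then `(Sum.map I J ∘ e.symm) ∘ (σ⁻¹ σ') = Sum.map I' J' ∘ e.symm`,
so `f I' J' = sign (σ⁻¹ σ') • f I J`. Hence `c` is alternating (if
`(K ∘ τ) ∘ σ = Sum.map I J ∘ e.symm` then `K ∘ (τ σ)` is this), `res e c = f` (`σ = 1`), and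
`c K = 0` if `nr K ≠ u` (`nr_map`, `nr_comp`). -/
theorem exists_ext (e : Fin m ⊕ Fin u ≃ Fin p) {f : (Fin m → X) → (Fin u → Y) → M}
    (hf : Alt2 f) (N : AddSubgroup M) (hN : ∀ I J, f I J ∈ N) :
    ∃ c : (Fin p → X ⊕ Y) → M, Alt c ∧ (∀ K, c K ∈ N) ∧ (∀ K, nr K ≠ u → c K = 0) ∧
      ∀ I J, res e c I J = f I J := by
  classical
  obtain ⟨c, hc⟩ : ∃ c : (Fin p → X ⊕ Y) → M,
      c = fun K => if h : ∃ v, KExt_R e f K v then h.choose else 0 := ⟨_, rfl⟩
  have h1 : ∀ K v, KExt_R e f K v → c K = v := by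
    intro K v hv
    have hex : ∃ v, KExt_R e f K v := ⟨v, hv⟩
    rw [hc]
    change (if h : ∃ v, KExt_R e f K v then h.choose else 0) = v
    rw [dif_pos hex]
    exact KExt_R_unique hf hex.choose_spec hv
  have h0 : ∀ K, nr K ≠ u → c K = 0 := by
    intro K hK
    have hex : ¬ ∃ v, KExt_R e f K v := fun ⟨v, hv⟩ => hK (KExt_R_nr hv)
    rw [hc]
    change (if h : ∃ v, KExt_R e f K v then h.choose else 0) = 0
    rw [dif_neg hex]
  have h2 : ∀ K, nr K = u → ∃ v, KExt_R e f K v := by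
    intro K hK
    obtain ⟨σ, I, J, hσ⟩ := exists_sort e K hK
    exact ⟨_, σ, I, J, hσ, rfl⟩
  refine ⟨c, ?_, ?_, h0, ?_⟩
  · intro τ K
    by_cases hK : nr K = u
    · obtain ⟨v, hv⟩ := h2 K hK
      rw [h1 K v hv]
      obtain ⟨σ, I, J, hσ, rfl⟩ := hv
      refine h1 _ _ ⟨τ⁻¹ * σ, I, J, ?_, ?_⟩
      · rw [← hσ]
        funext x
        simp [Function.comp_apply]
      · rw [smul_smul, map_mul, Equiv.Perm.sign_inv, Units.val_mul]
    · rw [h0 K hK, h0 (K ∘ τ) (by rw [nr_comp]; exact hK), smul_zero]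
  · intro K
    by_cases hK : nr K = u
    · obtain ⟨v, hv⟩ := h2 K hK
      rw [h1 K v hv]
      obtain ⟨σ, I, J, hσ, rfl⟩ := hv
      exact N.zsmul_mem (hN I J) _
    · rw [h0 K hK]
      exact N.zero_mem
  · intro I J
    refine h1 _ _ ⟨1, I, J, rfl, ?_⟩
    rw [Equiv.Perm.sign_one, Units.val_one, one_smul]

end Pool.Agent.MPd118f9
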