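import Pool.Agent.Lib.MP_d118f9_ag.K.KHom

/-!
# MP_d118f9_ag, block K: the filtered argument
-/

set_option autoImplicit false

noncomputable section

namespace Pool.Agent.MPd118f9

variable {k F X Y : Type} [Field k] [CharZero k] [Field F] [Algebra k F] [Fintype X] [Fintype Y]
  {p : ℕ}

/-- The top part of a cycle is a cycle for the leading part of the differential.

Proof. `p = 0`: nothing. At `I` with `nr I = T`: `dW w g I = 0` because
`nr (cons (inr l) I) + 1 = T + 2`. `dA_part`, `dA_part1`, `dW_part`. -/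
theorem cyc0_part {a : X → F} {w : Y → F} {s : F} {f g : (Fin p → X ⊕ Y) → F} {T : ℕ}
    (hg : ∀ I, T < nr I + 1 → g I = 0) (hc : Cyc1 a w s f g) :
    Cyc0 a w (part T f) (part1 T g) := by
  cases p with
  | zero => exact trivial
  | succ n =>
    obtain ⟨h1, h2⟩ : (∀ I, dA a f I + s * dW w g I = 0) ∧ ∀ I, dA a g I + dW w f I = 0 := hc
    refine ⟨fun I => ?_, fun I => ?_⟩
    · rw [dA_part]
      by_cases hI : nr I = T
      · rw [part_of_eq hI]
        have h3 : dW w g I = 0 := by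
          refine Finset.sum_eq_zero fun l _ => ?_
          rw [hg _ (by rw [nr_cons_inr]; omega), mul_zero]
        have h4 := h1 I
        rwa [h3, mul_zero, add_zero] at h4
      · exact part_of_ne hI
    · rw [dA_part1, dW_part]
      by_cases hI : nr I + 1 = T
      · rw [part1_of_eq hI, part1_of_eq hI]
        exact h2 I
      · rw [part1_of_ne hI, part1_of_ne hI, add_zero]

/-- Boundaries are cycles, and cycles form a group.

Proof. `p = 0`: nothing. `dA_dA`, `dW_dW`, `dA_dW` and the linearity of `dA`, `dW`. -/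
theorem cyc1_sub [CharZero F] {a : X → F} {w : Y → F} {s : F} {f g : (Fin p → X ⊕ Y) → F}
    (hc : Cyc1 a w s f g) {f' g' : (Fin (p + 1) → X ⊕ Y) → F} (hf' : Alt f') (hg' : Alt g') :
    Cyc1 a w s (fun I => f I - (dA a f' I + s * dW w g' I))
      (fun I => g I - (dA a g' I + dW w f' I)) := by
  cases p with
  | zero => exact trivial
  | succ n =>
    obtain ⟨h1, h2⟩ : (∀ I, dA a f I + s * dW w g I = 0) ∧ ∀ I, dA a g I + dW w f I = 0 := hc
    refine ⟨fun I => ?_, fun I => ?_⟩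
    · have e1 : dA a (fun K => f K - (dA a f' K + s * dW w g' K)) I =
          dA a f I - (dA a (dA a f') I + s * dA a (dW w g') I) := by
        rw [dA_sub, dA_add a (dA a f') (fun K => s * dW w g' K), dA_mul a s (dW w g')]
      have e2 : dW w (fun K => g K - (dA a g' K + dW w f' K)) I =
          dW w g I - (dW w (dA a g') I + dW w (dW w f') I) := by
        rw [dW_sub, dW_add w (dA a g') (dW w f')]
      show dA a (fun K => f K - (dA a f' K + s * dW w g' K)) I +
        s * dW w (fun K => g K - (dA a g' K + dW w f' K)) I = 0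
      rw [e1, e2, dA_dA hf', dW_dW hf', dA_dW hg']
      linear_combination h1 I
    · have e1 : dA a (fun K => g K - (dA a g' K + dW w f' K)) I =
          dA a g I - (dA a (dA a g') I + dA a (dW w f') I) := by
        rw [dA_sub, dA_add a (dA a g') (dW w f')]
      have e2 : dW w (fun K => f K - (dA a f' K + s * dW w g' K)) I =
          dW w f I - (dW w (dA a f') I + s * dW w (dW w g') I) := by
        rw [dW_sub, dW_add w (dA a f') (fun K => s * dW w g' K), dW_mul w s (dW w g')]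
      show dA a (fun K => g K - (dA a g' K + dW w f' K)) I +
        dW w (fun K => f K - (dA a f' K + s * dW w g' K)) I = 0
      rw [e1, e2, dA_dA hg', dW_dW hg', dA_dW hf']
      linear_combination h2 I

private theorem filt_aux {a : X → F} {w : Y → F} {s : F} {Pf₀ Pf Pg₀ Pg : Submodule k F}
    (haf : ∀ j, ∀ x ∈ Pf₀, a j * x ∈ Pf) (hag : ∀ j, ∀ x ∈ Pg₀, a j * x ∈ Pg)
    (hw : ∀ l, ∀ x ∈ Pf₀, w l * x ∈ Pg) (hs : ∀ l, ∀ x ∈ Pg₀, s * (w l * x) ∈ Pf)
    (hKE : ∀ i ≤ p, KE a Pf₀ Pf i) (hGX : GX a w Pf₀ Pg₀ Pg p) (T : ℕ) :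
    ∀ f g : (Fin p → X ⊕ Y) → F, Alt f → Alt g → (∀ I, f I ∈ Pf) → (∀ I, g I ∈ Pg) →
      Cyc1 a w s f g → (∀ I, T ≤ nr I → f I = 0) → (∀ I, T ≤ nr I + 1 → g I = 0) →
      ∃ f' g' : (Fin (p + 1) → X ⊕ Y) → F, Alt f' ∧ Alt g' ∧ (∀ I, f' I ∈ Pf₀) ∧
        (∀ I, g' I ∈ Pg₀) ∧ (∀ I, f I = dA a f' I + s * dW w g' I) ∧
        ∀ I, g I = dA a g' I + dW w f' I := by
  have hF : CharZero F := charZero_of_injective_algebraMap (algebraMap k F).injective
  induction T with
  | zero =>
    intro f g _ _ _ _ _ hf0 hg0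
    refine ⟨fun _ => 0, fun _ => 0, alt_zero, alt_zero, fun _ => Pf₀.zero_mem,
      fun _ => Pg₀.zero_mem, fun I => ?_, fun I => ?_⟩
    · rw [hf0 I (Nat.zero_le _)]
      simp [dA, dW]
    · rw [hg0 I (Nat.zero_le _)]
      simp [dA, dW]
  | succ T ih =>
    intro f g hf hg hfP hgP hc hf0 hg0
    have hc0 : Cyc0 a w (part T f) (part1 T g) := cyc0_part (fun I hI => hg0 I hI) hc
    obtain ⟨f₁, g₁, hf₁, hg₁, hf₁P, hg₁P, hf₁t, hg₁t, e1, e2⟩ := hom_step (t := T) hw hKE hGX
      (part_alt hf T) (part1_alt hg T) (fun I => by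
        by_cases hI : nr I = T
        · rw [part_of_eq hI]
          exact hfP I
        · rw [part_of_ne hI]
          exact Pf.zero_mem) (fun I => by
        by_cases hI : nr I + 1 = T
        · rw [part1_of_eq hI]
          exact hgP I
        · rw [part1_of_ne hI]
          exact Pg.zero_mem) (fun I hI => part_of_ne hI) (fun I hI => part1_of_ne hI) hc0
    have hW : ∀ I, T ≤ nr I → dW w g₁ I = 0 := fun I hI =>
      Finset.sum_eq_zero fun l _ => by rw [hg₁t _ (by rw [nr_cons_inr]; omega), mul_zero]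
    obtain ⟨f', g', hf', hg', hf'P, hg'P, e3, e4⟩ := ih
      (fun I => f I - (dA a f₁ I + s * dW w g₁ I)) (fun I => g I - (dA a g₁ I + dW w f₁ I))
      (alt_sub hf (alt_add (alt_dA hf₁ a) (alt_mul (alt_dW hg₁ w) s)))
      (alt_sub hg (alt_add (alt_dA hg₁ a) (alt_dW hf₁ w)))
      (fun I => by
        refine Pf.sub_mem (hfP I) (Pf.add_mem ?_ ?_)
        · exact Pf.sum_mem fun j _ => haf j _ (hf₁P _)
        · show s * ∑ l, w l * g₁ (Fin.cons (Sum.inr l) I) ∈ Pf
          rw [Finset.mul_sum]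
          exact Pf.sum_mem fun l _ => hs l _ (hg₁P _))
      (fun I => by
        refine Pg.sub_mem (hgP I) (Pg.add_mem ?_ ?_)
        · exact Pg.sum_mem fun j _ => hag j _ (hg₁P _)
        · exact Pg.sum_mem fun l _ => hw l _ (hf₁P _))
      (cyc1_sub hc hf₁ hg₁)
      (fun I hI => by
        show f I - (dA a f₁ I + s * dW w g₁ I) = 0
        rw [hW I hI, mul_zero, add_zero]
        by_cases hI2 : nr I = T
        · rw [← e1, part_of_eq hI2, sub_self]
        · have h3 : dA a f₁ I = 0 := Finset.sum_eq_zero fun j _ => by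
            rw [hf₁t _ (by rw [nr_cons_inl]; exact hI2), mul_zero]
          rw [h3, hf0 I (by omega), sub_zero])
      (fun I hI => by
        show g I - (dA a g₁ I + dW w f₁ I) = 0
        by_cases hI2 : nr I + 1 = T
        · rw [← e2, part1_of_eq hI2, sub_self]
        · have h3 : dA a g₁ I = 0 := Finset.sum_eq_zero fun j _ => by
            rw [hg₁t _ (by rw [nr_cons_inl]; exact hI2), mul_zero]
          have h4 : dW w f₁ I = 0 := Finset.sum_eq_zero fun l _ => by
            rw [hf₁t _ (by rw [nr_cons_inr]; exact hI2), mul_zero]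
          rw [h3, h4, hg0 I (by omega), add_zero, sub_zero])
    refine ⟨fun I => f' I + f₁ I, fun I => g' I + g₁ I, alt_add hf' hf₁, alt_add hg' hg₁,
      fun I => Pf₀.add_mem (hf'P I) (hf₁P I), fun I => Pg₀.add_mem (hg'P I) (hg₁P I),
      fun I => ?_, fun I => ?_⟩
    · have h3 : f I - (dA a f₁ I + s * dW w g₁ I) = dA a f' I + s * dW w g' I := e3 I
      rw [dA_add, dW_add]
      linear_combination h3
    · have h3 : g I - (dA a g₁ I + dW w f₁ I) = dA a g' I + dW w f' I := e4 I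
      rw [dA_add, dW_add]
      linear_combination h3

/-- The filtered argument.

Proof. Induction on `T` with the hypothesis that `f I = 0` if `T ≤ nr I` and `g I = 0` if
`T ≤ nr I + 1`. `T = 0`: `f = g = 0`. Step `T + 1`: `cyc0_part` and `hom_step` (`t = T`) for
`part T f`, `part1 T g` give `f₁`, `g₁`; the pair
`(f - dA f₁ - s dW g₁, g - dA g₁ - dW f₁)` is a cycle (`cyc1_sub`) and satisfies the hypothesis for
`T` (at `nr I = T` one has `dW w g₁ I = 0`). The hypothesis holds for `T = p + 2` (`nr_le`). -/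
theorem filt {a : X → F} {w : Y → F} {s : F} {Pf₀ Pf Pg₀ Pg : Submodule k F}
    (haf : ∀ j, ∀ x ∈ Pf₀, a j * x ∈ Pf) (hag : ∀ j, ∀ x ∈ Pg₀, a j * x ∈ Pg)
    (hw : ∀ l, ∀ x ∈ Pf₀, w l * x ∈ Pg) (hs : ∀ l, ∀ x ∈ Pg₀, s * (w l * x) ∈ Pf)
    (hKE : ∀ i ≤ p, KE a Pf₀ Pf i) (hGX : GX a w Pf₀ Pg₀ Pg p) {f g : (Fin p → X ⊕ Y) → F}
    (hf : Alt f) (hg : Alt g) (hfP : ∀ I, f I ∈ Pf) (hgP : ∀ I, g I ∈ Pg)
    (hc : Cyc1 a w s f g) :
    ∃ f' g' : (Fin (p + 1) → X ⊕ Y) → F, Alt f' ∧ Alt g' ∧ (∀ I, f' I ∈ Pf₀) ∧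
      (∀ I, g' I ∈ Pg₀) ∧ (∀ I, f I = dA a f' I + s * dW w g' I) ∧
      ∀ I, g I = dA a g' I + dW w f' I :=
  filt_aux haf hag hw hs hKE hGX (p + 2) f g hf hg hfP hgP hc
    (fun I hI => absurd hI (by have := nr_le I; omega))
    (fun I hI => absurd hI (by have := nr_le I; omega))

end Pool.Agent.MPd118f9
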