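import Pool.Agent.Lib.MP_d118f9_ag.K.KHomB

/-!
# MP_d118f9_ag, block K: homogeneous cycles, the step
-/

set_option autoImplicit false

noncomputable section

namespace Pool.Agent.MPd118f9

variable {k F X Y : Type} [Field k] [CharZero k] [Field F] [Algebra k F] [Fintype X] [Fintype Y]
  {p t : ℕ}

/-- Homogeneous cycles of weight `t` for the leading part of the differential are boundaries.

Proof. `exact_hom` for `f` gives `f₁` with `f = dA a f₁`. `g₁ = g - dW w f₁` satisfies `dA a g₁ = 0`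
(`dA_dW`: `dA a (dW w f₁) = -dW w (dA a f₁) = -dW w f`), so `exact_gx` gives `f₂`, `g'`; take
`f' = f₁ + f₂`. (`dW w f₁` has values in `Pg` and is homogeneous: `nr_cons_inr`.) -/
theorem hom_step {a : X → F} {w : Y → F} {Pf₀ Pf Pg₀ Pg : Submodule k F}
    (hw : ∀ l, ∀ x ∈ Pf₀, w l * x ∈ Pg) (hKE : ∀ i ≤ p, KE a Pf₀ Pf i)
    (hGX : GX a w Pf₀ Pg₀ Pg p) {f g : (Fin p → X ⊕ Y) → F} (hf : Alt f) (hg : Alt g)
    (hfP : ∀ I, f I ∈ Pf) (hgP : ∀ I, g I ∈ Pg) (hft : ∀ I, nr I ≠ t → f I = 0)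
    (hgt : ∀ I, nr I + 1 ≠ t → g I = 0) (hc : Cyc0 a w f g) :
    ∃ f' g' : (Fin (p + 1) → X ⊕ Y) → F, Alt f' ∧ Alt g' ∧ (∀ I, f' I ∈ Pf₀) ∧
      (∀ I, g' I ∈ Pg₀) ∧ (∀ I, nr I ≠ t → f' I = 0) ∧ (∀ I, nr I + 1 ≠ t → g' I = 0) ∧
      (∀ I, f I = dA a f' I) ∧ ∀ I, g I = dA a g' I + dW w f' I := by
  have : CharZero F := charZero_of_injective_algebraMap (algebraMap k F).injective
  have hcf : CycA a f := by
    cases p with
    | zero => exact trivial
    | succ p => exact hc.1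
  obtain ⟨f₁, h1, h2, h3, h4⟩ := exact_hom hKE hf hfP hft hcf
  have hg₁ : Alt fun I => g I - dW w f₁ I := alt_sub hg (alt_dW h1 w)
  have hg₁P : ∀ I, g I - dW w f₁ I ∈ Pg := fun I =>
    Pg.sub_mem (hgP I) (Pg.sum_mem fun l _ => hw l _ (h2 _))
  have hg₁t : ∀ I, nr I + 1 ≠ t → g I - dW w f₁ I = 0 := by
    intro I hI
    have e1 : dW w f₁ I = 0 := by
      refine Finset.sum_eq_zero fun l _ => ?_
      rw [h3 _ (by rw [nr_cons_inr]; exact hI), mul_zero]
    rw [hgt I hI, e1, sub_zero]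
  have hcg : CycA a fun I => g I - dW w f₁ I := by
    cases p with
    | zero => exact trivial
    | succ p =>
      intro I
      have e1 : dA a f₁ = f := funext fun K => (h4 K).symm
      rw [dA_sub, dA_dW h1, e1, sub_neg_eq_add]
      exact hc.2 I
  obtain ⟨f₂, g', k1, k2, k3, k4, k5, k6, k7, k8⟩ := exact_gx hGX hg₁ hg₁P hg₁t hcg
  refine ⟨fun I => f₁ I + f₂ I, g', alt_add h1 k1, k2, fun I => Pf₀.add_mem (h2 I) (k3 I), k4,
    ?_, k6, ?_, ?_⟩
  · intro I hI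
    show f₁ I + f₂ I = 0
    rw [h3 I hI, k5 I hI, add_zero]
  · intro I
    rw [dA_add, k7 I, add_zero]
    exact h4 I
  · intro I
    rw [dW_add]
    have e1 := k8 I
    linear_combination e1

end Pool.Agent.MPd118f9
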