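import Pool.Agent.Lib.MP_d118f9_ag.K.AltA
import Pool.Agent.Lib.MP_d118f9_ag.K.KAsym

/-!
# MP_d118f9_ag, block K: exactness for two groups of indices
-/

set_option autoImplicit false

noncomputable section

namespace Pool.Agent.MPd118f9

section

variable {k F X Y : Type} [Field k] [CharZero k] [Field F] [Algebra k F] [Fintype X] [Fintype Y]
  {m u : ℕ}

/-- Exactness for the first group, with the second group as parameters.

Proof. For every `J` exactness for `f · J` gives `g₀ J`; put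
`g I J = (u!)⁻¹ ∑ τ, sign τ • g₀ (J ∘ τ) I`. It is alternating in `J` (reindex the sum over `τ`)
and in `I`, and `∑ j, a j * g (cons j I) J = (u!)⁻¹ ∑ τ, sign τ • f I (J ∘ τ) = f I J`. -/
theorem ke_two {a : X → F} {P₀ P : Submodule k F} (h : KE a P₀ P m)
    {f : (Fin m → X) → (Fin u → Y) → F} (hf : Alt2 f) (hP : ∀ I J, f I J ∈ P)
    (hc : ∀ J, IsCyc a fun I => f I J) :
    ∃ g : (Fin (m + 1) → X) → (Fin u → Y) → F, Alt2 g ∧ (∀ I J, g I J ∈ P₀) ∧
      ∀ I J, f I J = ∑ j, a j * g (Fin.cons j I) J := by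
  choose g₀ h1 h2 h3 using fun J => h (fun I => f I J) (hf.1 J) (fun I => hP I J) (hc J)
  have hfac : ((u.factorial : ℕ) : k) ≠ 0 := Nat.cast_ne_zero.2 u.factorial_ne_zero
  refine ⟨fun I J => ((u.factorial : ℕ) : k)⁻¹ • asymm (fun J => g₀ J I) J, ⟨?_, ?_⟩, ?_, ?_⟩
  · intro J
    refine alt_hom ?_ (DistribSMul.toAddMonoidHom F (((u.factorial : ℕ) : k)⁻¹))
    exact alt_sum fun τ _ => alt_hom (h1 (J ∘ τ))
      (DistribSMul.toAddMonoidHom F ((Equiv.Perm.sign τ : ℤˣ) : ℤ))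
  · intro I
    exact alt_hom (alt_asymm _) (DistribSMul.toAddMonoidHom F (((u.factorial : ℕ) : k)⁻¹))
  · intro I J
    exact P₀.smul_mem _ (asymm_mem (N := P₀.toAddSubgroup) (fun J => h2 J I) J)
  · intro I J
    have h4 : ∑ j, a j * (((u.factorial : ℕ) : k)⁻¹ •
        asymm (fun J => g₀ J (Fin.cons j I)) J) =
        ((u.factorial : ℕ) : k)⁻¹ • asymm (f I) J := by
      simp only [asymm, mul_smul_comm, ← Finset.smul_sum, Finset.mul_sum]
      congr 1
      rw [Finset.sum_comm]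
      refine Finset.sum_congr rfl fun τ _ => ?_
      rw [h3 (J ∘ τ) I, dk, Finset.smul_sum]
    show f I J = ∑ j, a j * (((u.factorial : ℕ) : k)⁻¹ •
        asymm (fun J => g₀ J (Fin.cons j I)) J)
    rw [h4, asymm_of_alt (hf.2 I) J, natCast_zsmul, ← Nat.cast_smul_eq_nsmul k, smul_smul,
      inv_mul_cancel₀ hfac, one_smul]

/-- Proof. `ke_two`, with `f' = 0`. -/
theorem gx_of_ke {a : X → F} (w : Y → F) (Pf₀ : Submodule k F) {P₀ P : Submodule k F} {p : ℕ}
    (h : ∀ i ≤ p, KE a P₀ P i) : GX a w Pf₀ P₀ P p := by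
  intro m u hmu g hg hP hc
  obtain ⟨g', h1, h2, h3⟩ := ke_two (h m (by omega)) hg hP hc
  refine ⟨g', fun _ _ => 0, h1, ⟨fun _ => alt_zero, fun _ => alt_zero⟩, h2,
    fun _ _ => Pf₀.zero_mem, ?_, ?_⟩
  · intro J
    cases m with
    | zero => exact trivial
    | succ m =>
      intro I
      simp
  · intro I J
    rw [h3 I J]
    simp

end

end Pool.Agent.MPd118f9
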