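import Pool.Agent.Lib.MP_d118f9_ag.K.KExt
import Pool.Agent.Lib.MP_d118f9_ag.K.KTwo

/-!
# MP_d118f9_ag, block K: homogeneous cycles, first component
-/

set_option autoImplicit false

noncomputable section

namespace Pool.Agent.MPd118f9

variable {k F X Y : Type} [Field k] [CharZero k] [Field F] [Algebra k F] [Fintype X] [Fintype Y]
  {p t : ℕ}

/-- `dA c = 0` is the cycle condition for all `res` with the bijection `ee`.

Proof. `m = 0`: nothing. `m + 1`: `ee (m + 1) u = eA (ee m u)` and `res_dA`. -/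
theorem isCyc_res {a : X → F} {m u : ℕ} {c : (Fin (u + m) → X ⊕ Y) → F} (h : CycA a c)
    (J : Fin u → Y) : IsCyc a fun I => res (ee m u) c I J := by
  cases m with
  | zero => trivial
  | succ m =>
    intro I
    have h1 : ∀ K, dA a c K = 0 := h
    have h2 := res_dA a (ee m u) c I J
    rw [show res (ee m u) (dA a c) I J = 0 from h1 _] at h2
    exact h2.symm

/-- Exactness for functions on `X ⊕ Y` that are homogeneous of degree `t`.

Proof. If `p < t` then `c = 0` (`nr_le`). Otherwise `p = t + m`; `isCyc_res`, `ke_two` for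
`res (ee m t) c`, `exists_ext` for `eA (ee m t)`, and `res_dA`, `eq_zero_of_res` for the difference
`c - dA a b`. -/
theorem exact_hom {a : X → F} {P₀ P : Submodule k F} (h : ∀ i ≤ p, KE a P₀ P i)
    {c : (Fin p → X ⊕ Y) → F} (hc : Alt c) (hP : ∀ I, c I ∈ P) (ht : ∀ I, nr I ≠ t → c I = 0)
    (hcy : CycA a c) :
    ∃ b : (Fin (p + 1) → X ⊕ Y) → F, Alt b ∧ (∀ I, b I ∈ P₀) ∧ (∀ I, nr I ≠ t → b I = 0) ∧
      ∀ I, c I = dA a b I := by
  by_cases hpt : p < t
  · refine ⟨fun _ => 0, alt_zero, fun _ => P₀.zero_mem, fun _ _ => rfl, fun I => ?_⟩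
    have h1 : c I = 0 := ht I (by have := nr_le I; omega)
    rw [h1]
    simp [dA]
  · obtain ⟨m, rfl⟩ := Nat.exists_eq_add_of_le (not_lt.1 hpt)
    obtain ⟨g, hg, hgP, hg1⟩ := ke_two (h m (Nat.le_add_left _ _)) (alt2_res (ee m t) hc)
      (fun I J => hP _) (isCyc_res hcy)
    obtain ⟨b, hb, hbP, hbt, hbr⟩ := exists_ext (eA (ee m t)) hg P₀.toAddSubgroup hgP
    refine ⟨b, hb, hbP, hbt, fun I => ?_⟩
    refine sub_eq_zero.1 (eq_zero_of_res (ee m t) (alt_sub hc (alt_dA hb a)) ?_ ?_ I)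
    · intro K hK
      rw [ht K hK, zero_sub, neg_eq_zero]
      unfold dA
      refine Finset.sum_eq_zero fun j _ => ?_
      rw [hbt _ (by rw [nr_cons_inl]; exact hK), mul_zero]
    · intro I J
      have h1 := res_dA a (ee m t) b I J
      simp only [hbr] at h1
      have h2 := hg1 I J
      rw [← h1] at h2
      exact sub_eq_zero.2 h2

end Pool.Agent.MPd118f9
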