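import Pool.Agent.Lib.MP_d118f9_ag.K.KHomA

/-!
# MP_d118f9_ag, block K: homogeneous cycles, second component
-/

set_option autoImplicit false

noncomputable section

namespace Pool.Agent.MPd118f9

variable {k F X Y : Type} [Field k] [CharZero k] [Field F] [Algebra k F] [Fintype X] [Fintype Y]
  {p t : ℕ}

/-- The second component: `g` homogeneous of degree `t - 1` (zero if `t = 0`).

Proof. `t = 0`: `g = 0`. `t = u + 1`; if `p < u` then `g = 0`. Otherwise `p = u + m`; `hGX` for
`res (ee m u) g` (`isCyc_res`) gives `g₁` and `f₁`; `g' = exists_ext (eA (ee m u)) g₁`,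
`f' = exists_ext (eW (ee m u)) f₁` (homogeneous of degree `u + 1 = t`). The equation for `g`:
`eq_zero_of_res` for the difference, with `res_dA`, `res_dW`. `CycA a f'`: `dA a f'` is alternating
and homogeneous of degree `u + 1` on `Fin p`, `p = u + m`. If `m = 0` it vanishes (`nr_le`). If
`m = m' + 1` use `eq_zero_of_res` for `eW (ee m' u)`: `res_dA`, then `res_change` from
`eA (eW (ee m' u))` to `eW (ee m u)` (`ee m u = eA (ee m' u)`), and the cycle condition of `f₁`. -/
theorem exact_gx {a : X → F} {w : Y → F} {Pf₀ Pg₀ Pg : Submodule k F}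
    (hGX : GX a w Pf₀ Pg₀ Pg p) {g : (Fin p → X ⊕ Y) → F} (hg : Alt g) (hP : ∀ I, g I ∈ Pg)
    (ht : ∀ I, nr I + 1 ≠ t → g I = 0) (hcy : CycA a g) :
    ∃ f' g' : (Fin (p + 1) → X ⊕ Y) → F, Alt f' ∧ Alt g' ∧ (∀ I, f' I ∈ Pf₀) ∧
      (∀ I, g' I ∈ Pg₀) ∧ (∀ I, nr I ≠ t → f' I = 0) ∧ (∀ I, nr I + 1 ≠ t → g' I = 0) ∧
      (∀ I, dA a f' I = 0) ∧ ∀ I, g I = dA a g' I + dW w f' I := by
  have hzero : (∀ I, g I = 0) → ∃ f' g' : (Fin (p + 1) → X ⊕ Y) → F, Alt f' ∧ Alt g' ∧
      (∀ I, f' I ∈ Pf₀) ∧ (∀ I, g' I ∈ Pg₀) ∧ (∀ I, nr I ≠ t → f' I = 0) ∧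
      (∀ I, nr I + 1 ≠ t → g' I = 0) ∧ (∀ I, dA a f' I = 0) ∧
      ∀ I, g I = dA a g' I + dW w f' I := by
    intro h0
    refine ⟨fun _ => 0, fun _ => 0, alt_zero, alt_zero, fun _ => Pf₀.zero_mem,
      fun _ => Pg₀.zero_mem, fun _ _ => rfl, fun _ _ => rfl, fun I => ?_, fun I => ?_⟩
    · simp [dA]
    · rw [h0 I]
      simp [dA, dW]
  cases t with
  | zero => exact hzero fun I => ht I (Nat.succ_ne_zero _)
  | succ u =>
    by_cases hpu : p < u
    · exact hzero fun I => ht I (by have := nr_le I; omega)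
    · obtain ⟨m, rfl⟩ := Nat.exists_eq_add_of_le (not_lt.1 hpu)
      obtain ⟨g₁, f₁, hg₁, hf₁, hg₁P, hf₁P, hf₁c, heq⟩ := hGX m u rfl (res (ee m u) g)
        (alt2_res (ee m u) hg) (fun I J => hP _) (isCyc_res hcy)
      obtain ⟨g', hg', hgP', hgu', hgr⟩ := exists_ext (eA (ee m u)) hg₁ Pg₀.toAddSubgroup hg₁P
      obtain ⟨f', hf', hfP', hfu', hfr⟩ := exists_ext (eW (ee m u)) hf₁ Pf₀.toAddSubgroup hf₁P
      have hdf : ∀ K, nr K ≠ u + 1 → dA a f' K = 0 := by
        intro K hK
        unfold dA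
        refine Finset.sum_eq_zero fun j _ => ?_
        rw [hfu' _ (by rw [nr_cons_inl]; exact hK), mul_zero]
      refine ⟨f', g', hf', hg', hfP', hgP', hfu', fun I hI => hgu' I fun h => hI (by rw [h]),
        fun I => ?_, fun I => ?_⟩
      · cases m with
        | zero => exact hdf I (by have := nr_le I; omega)
        | succ m =>
          refine eq_zero_of_res (eW (ee m u)) (alt_dA hf' a) hdf (fun I J => ?_) I
          have h1 := res_dA a (eW (ee m u)) f' I J
          rw [h1]
          have h2 : ∀ j, res (eA (eW (ee m u))) f' (Fin.cons j I) J =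
              ((Equiv.Perm.sign ((eA (eW (ee m u))).symm.trans (eW (ee (m + 1) u))) : ℤˣ) : ℤ) •
                f₁ (Fin.cons j I) J := by
            intro j
            rw [res_change (eW (ee (m + 1) u)) (eA (eW (ee m u))) hf' (Fin.cons j I) J, hfr]
          simp only [h2, mul_smul_comm]
          rw [← Finset.smul_sum]
          have h3 : ∑ j, a j * f₁ (Fin.cons j I) J = 0 := hf₁c J I
          rw [h3, smul_zero]
      · refine sub_eq_zero.1 (eq_zero_of_res (ee m u) (alt_sub hg (alt_add (alt_dA hg' a)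
          (alt_dW hf' w))) ?_ ?_ I)
        · intro K hK
          have h1 : g K = 0 := ht K fun h => hK (by omega)
          have h2 : dA a g' K = 0 := by
            unfold dA
            refine Finset.sum_eq_zero fun j _ => ?_
            rw [hgu' _ (by rw [nr_cons_inl]; exact hK), mul_zero]
          have h3 : dW w f' K = 0 := by
            unfold dW
            refine Finset.sum_eq_zero fun l _ => ?_
            rw [hfu' _ (by rw [nr_cons_inr]; omega), mul_zero]
          rw [h1, h2, h3]
          simp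
        · intro I J
          have h1 := res_dA a (ee m u) g' I J
          have h2 := res_dW w (ee m u) f' I J
          have h3 := heq I J
          simp only [hgr] at h1
          simp only [hfr] at h2
          rw [← h1, ← h2] at h3
          exact sub_eq_zero.2 h3

end Pool.Agent.MPd118f9
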