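import Pool.Agent.Lib.MP_d118f9_ag.K.AltA
import Pool.Agent.Lib.MP_d118f9_ag.Iface1

/-!
# MP_d118f9_ag, block K: invariance under linear equivalence
-/

set_option autoImplicit false

noncomputable section

namespace Pool.Agent.MPd118f9

variable {k K : Type} [Field k] [IsAlgClosed k] [CharZero k] [Field K] [Algebra k K]

private theorem KLin_dv_pow (hK : IsCurve k K) {f : K} (hf : f ≠ 0) (q : ℕ) :
    dv k (f ^ q) = q • dv k f := by
  induction q with
  | zero =>
    have h1 := hK.dv_mul (one_ne_zero (α := K)) (one_ne_zero (α := K))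
    rw [mul_one] at h1
    rw [pow_zero, zero_smul]
    exact left_eq_add.1 h1
  | succ q ih =>
    rw [pow_succ, hK.dv_mul (pow_ne_zero q hf) hf, ih, succ_nsmul]

/-- Proof. Induction on `q`, `IsCurve.mul_mem_iff` (`dv k (f ^ q) = q • dv k f`). -/
theorem pow_mul_mem_iff (hK : IsCurve k K) (W : Dv k K) {f g : K} (hf : f ≠ 0) (q : ℕ) :
    f ^ q * g ∈ L (q • W) ↔ g ∈ L (q • (W + dv k f)) := by
  rw [hK.mul_mem_iff (pow_ne_zero q hf), KLin_dv_pow hK hf, smul_add]

/-- multiplication by `f` -/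
private def KLin_e (hK : IsCurve k K) (W : Dv k K) {f : K} (hf : f ≠ 0) :
    L (W + dv k f) ≃ₗ[k] L W where
  toFun g := ⟨f * g, (hK.mul_mem_iff hf).2 g.2⟩
  map_add' g g' := Subtype.ext (mul_add _ _ _)
  map_smul' c g := Subtype.ext (mul_smul_comm _ _ _)
  invFun g := ⟨f⁻¹ * g, (hK.mul_mem_iff hf).1 (by
    rw [← mul_assoc, mul_inv_cancel₀ hf, one_mul]
    exact g.2)⟩
  left_inv g := Subtype.ext (by
    show f⁻¹ * (f * (g : K)) = g
    rw [← mul_assoc, inv_mul_cancel₀ hf, one_mul])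
  right_inv g := Subtype.ext (by
    show f * (f⁻¹ * (g : K)) = g
    rw [← mul_assoc, mul_inv_cancel₀ hf, one_mul])

/-- Proof. Let `v'` be a basis of `L(W + dv f)` and `c'` a cycle with values in `L(q (W + dv f))`.
Then `v_j = f v'_j` is a basis of `L(W)` (multiplication by `f` is a linear equivalence),
`c = f ^ q c'` is a cycle with values in `L(q W)`, `c = dk v b` and
`c' = dk v' (f ^ (-(q - 1)) b)`. -/
theorem KosExact.add_dv (hK : IsCurve k K) {W : Dv k K} {f : K} (hf : f ≠ 0) {i q : ℕ}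
    (hq : 1 ≤ q) (h : KosExact W i q) : KosExact (W + dv k f) i q := by
  intro r v' c' hA hm hc
  obtain ⟨q, rfl⟩ : ∃ m, q = m + 1 := ⟨q - 1, by omega⟩
  have hfq : f ^ q ≠ 0 := pow_ne_zero q hf
  have hv : ∀ j, (((v'.map (KLin_e hK W hf)) j : L W) : K) = f * (v' j : K) := by
    intro j
    rw [Module.Basis.map_apply]
    rfl
  have hcyc : IsCyc (fun j => (((v'.map (KLin_e hK W hf)) j : L W) : K))
      (fun I => f ^ (q + 1) * c' I) := by
    cases i with
    | zero => trivial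
    | succ i =>
      intro J
      have h1 : ∀ j, (((v'.map (KLin_e hK W hf)) j : L W) : K) *
          (f ^ (q + 1) * c' (Fin.cons j J)) =
          (f * f ^ (q + 1)) * ((v' j : K) * c' (Fin.cons j J)) := by
        intro j
        rw [hv]
        ring
      rw [Finset.sum_congr rfl fun j _ => h1 j, ← Finset.mul_sum]
      have h2 : ∑ j, (v' j : K) * c' (Fin.cons j J) = 0 := hc J
      rw [h2, mul_zero]
  obtain ⟨b, hbA, hbm, hb⟩ := h r (v'.map (KLin_e hK W hf)) (fun I => f ^ (q + 1) * c' I)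
    (alt_mul hA _) (fun I => (pow_mul_mem_iff hK W hf (q + 1)).2 (hm I)) hcyc
  refine ⟨fun I => (f ^ q)⁻¹ * b I, alt_mul hbA _, fun I => ?_, fun I => ?_⟩
  · rw [Nat.add_sub_cancel] at hbm ⊢
    refine (pow_mul_mem_iff hK W hf q).1 ?_
    rw [← mul_assoc, mul_inv_cancel₀ hfq, one_mul]
    exact hbm I
  · have h1 := hb I
    have h2 : ∀ j, (((v'.map (KLin_e hK W hf)) j : L W) : K) * b (Fin.cons j I) =
        (f * f ^ q) * ((v' j : K) * ((f ^ q)⁻¹ * b (Fin.cons j I))) := by
      intro j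
      rw [hv]
      field_simp
    rw [Finset.sum_congr rfl fun j _ => h2 j, ← Finset.mul_sum] at h1
    have h3 : f * f ^ q ≠ 0 := mul_ne_zero hf hfq
    have h4 : f ^ (q + 1) = f * f ^ q := pow_succ' f q
    simp only [h4] at h1
    exact mul_left_cancel₀ h3 h1

/-- Proof. `W' = W + dv f` (`IsCan.equiv`) and `KosExact.add_dv`. -/
theorem Np.of_can (hK : IsCurve k K) {W W' : Dv k K} (hW : IsCan W) (hW' : IsCan W') {p : ℕ}
    (h : Np W p) : Np W' p := by
  obtain ⟨f, hf, rfl⟩ := IsCan.equiv hK hW hW'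
  intro i hi q hq
  exact (h i hi q hq).add_dv hK hf (by omega)

/-- Proof. `W' = W + dv f`, `ell (W' - D) = ell (W - D + dv f) = ell (W - D)`. -/
theorem cliff_eq (hK : IsCurve k K) {W W' : Dv k K} (hW : IsCan W) (hW' : IsCan W') :
    cliff W = cliff W' := by
  obtain ⟨f, hf, rfl⟩ := IsCan.equiv hK hW hW'
  have h1 : ∀ D : Dv k K, ell (W + dv k f - D) = ell (W - D) := by
    intro D
    rw [add_sub_right_comm]
    exact hK.ell_add_dv (W - D) hf
  unfold cliff
  simp only [h1]

end Pool.Agent.MPd118f9
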