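import Pool.Agent.Lib.MP_d118f9_ag.K.KFil
import Pool.Agent.Lib.MP_d118f9_ag.K.KBasis
import Pool.Agent.Lib.MP_d118f9_ag.K.KCoord

/-!
# MP_d118f9_ag, block K: exactness of the Koszul complex of a double cover
-/

set_option autoImplicit false

noncomputable section

namespace Pool.Agent.MPd118f9

section

variable {k F K : Type} [Field k] [IsAlgClosed k] [CharZero k] [Field F] [Field K] [Algebra k F]
  [Algebra k K] [Algebra F K] [IsScalarTower k F K] {y : K} {s : F} {A W : Dv k F} {WK : Dv k K}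

omit [IsAlgClosed k] [CharZero k] [IsScalarTower k F K] in
private theorem KMain_dk (h : DC y s A W WK) {r g n : ℕ} (a : Fin r → F) (w : Fin g → F)
    (v : Fin r ⊕ Fin g → K) (h1 : ∀ j, v (Sum.inl j) = algebraMap F K (a j))
    (h2 : ∀ l, v (Sum.inr l) = algebraMap F K (w l) * y)
    (f' g' : (Fin (n + 1) → Fin r ⊕ Fin g) → F) (I : Fin n → Fin r ⊕ Fin g) :
    dk v (fun J => algebraMap F K (f' J) + algebraMap F K (g' J) * y) I =
      algebraMap F K (dA a f' I + s * dW w g' I) +
        algebraMap F K (dA a g' I + dW w f' I) * y := by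
  unfold dk dA dW
  rw [Fintype.sum_sum_type]
  simp only [h1, h2, map_add, map_mul, map_sum]
  have e1 : ∀ j, algebraMap F K (a j) * (algebraMap F K (f' (Fin.cons (Sum.inl j) I)) +
      algebraMap F K (g' (Fin.cons (Sum.inl j) I)) * y) =
      algebraMap F K (a j) * algebraMap F K (f' (Fin.cons (Sum.inl j) I)) +
        algebraMap F K (a j) * algebraMap F K (g' (Fin.cons (Sum.inl j) I)) * y := by
    intro j
    ring
  have e2 : ∀ l, algebraMap F K (w l) * y * (algebraMap F K (f' (Fin.cons (Sum.inr l) I)) +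
      algebraMap F K (g' (Fin.cons (Sum.inr l) I)) * y) =
      algebraMap F K (w l) * algebraMap F K (f' (Fin.cons (Sum.inr l) I)) * y +
        algebraMap F K s * (algebraMap F K (w l) *
          algebraMap F K (g' (Fin.cons (Sum.inr l) I))) := by
    intro l
    rw [← h.sq]
    ring
  simp only [e1, e2, Finset.sum_add_distrib, ← Finset.sum_mul, ← Finset.mul_sum]
  ring

private theorem KMain_ke (h : DC y s A W WK) {r g : ℕ} (a : Module.Basis (Fin r) k (L A))
    (w : Module.Basis (Fin g) k (L W)) {p q : ℕ} (hq : 2 ≤ q)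
    (hKE : ∀ i ≤ p, KE (fun j => (a j : F)) (L ((q - 1) • A)) (L (q • A)) i)
    (hGX : GX (fun j => (a j : F)) (fun l => (w l : F)) (L ((q - 1) • A))
      (L ((((q - 1 : ℕ) : ℤ) - 1) • A + W)) (L (((q : ℤ) - 1) • A + W)) p)
    (v : Module.Basis (Fin r ⊕ Fin g) k (L WK))
    (h1 : ∀ j, (v (Sum.inl j) : K) = algebraMap F K (a j))
    (h2 : ∀ l, (v (Sum.inr l) : K) = algebraMap F K (w l) * y) :
    KE (fun j => (v j : K)) (L ((q - 1) • WK)) (L (q • WK)) p := by
  intro c hc hcP hcyc
  obtain ⟨π₀, π₁, hπ⟩ := h.exists_coord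
  have hmem : ∀ I, π₀ (c I) ∈ L (q • A) ∧ π₁ (c I) ∈ L (((q : ℤ) - 1) • A + W) := by
    intro I
    have e1 := hcP I
    rw [hπ (c I)] at e1
    exact (h.mem q _ _).1 e1
  have hcy : Cyc1 (fun j => (a j : F)) (fun l => (w l : F)) s (fun I => π₀ (c I))
      (fun I => π₁ (c I)) := by
    cases p with
    | zero => trivial
    | succ p =>
      have e1 : ∀ I, algebraMap F K (dA (fun j => (a j : F)) (fun I => π₀ (c I)) I +
          s * dW (fun l => (w l : F)) (fun I => π₁ (c I)) I) +
          algebraMap F K (dA (fun j => (a j : F)) (fun I => π₁ (c I)) I +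
            dW (fun l => (w l : F)) (fun I => π₀ (c I)) I) * y =
          algebraMap F K 0 + algebraMap F K 0 * y := by
        intro I
        rw [← KMain_dk h (fun j => (a j : F)) (fun l => (w l : F)) (fun j => (v j : K)) h1 h2
          (fun I => π₀ (c I)) (fun I => π₁ (c I)) I, map_zero, zero_mul, add_zero]
        have e2 : (fun J => algebraMap F K (π₀ (c J)) + algebraMap F K (π₁ (c J)) * y) = c :=
          funext fun J => (hπ (c J)).symm
        rw [e2]
        exact hcyc I
      exact ⟨fun I => (h.ext (e1 I)).1, fun I => (h.ext (e1 I)).2⟩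
  obtain ⟨q', rfl⟩ : ∃ q', q = q' + 1 := ⟨q - 1, by omega⟩
  rw [Nat.add_sub_cancel] at hKE hGX ⊢
  have haf : ∀ j, ∀ x ∈ L (q' • A), (a j : F) * x ∈ L ((q' + 1) • A) := by
    intro j x hx
    have e1 := mul_mem_L (a j).2 hx
    have e2 : A + q' • A = (q' + 1) • A := by rw [succ_nsmul, add_comm]
    rwa [e2] at e1
  have hag : ∀ j, ∀ x ∈ L (((q' : ℤ) - 1) • A + W),
      (a j : F) * x ∈ L ((((q' + 1 : ℕ) : ℤ) - 1) • A + W) := by
    intro j x hx
    have e1 := mul_mem_L (a j).2 hx
    have e2 : A + (((q' : ℤ) - 1) • A + W) = (((q' + 1 : ℕ) : ℤ) - 1) • A + W := by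
      rw [← add_assoc]
      congr 1
      ext P
      simp only [Finsupp.add_apply, Finsupp.smul_apply, smul_eq_mul]
      push_cast
      ring
    rwa [e2] at e1
  have hw : ∀ l, ∀ x ∈ L (q' • A), (w l : F) * x ∈ L ((((q' + 1 : ℕ) : ℤ) - 1) • A + W) := by
    intro l x hx
    have e1 := mul_mem_L (w l).2 hx
    have e2 : W + q' • A = (((q' + 1 : ℕ) : ℤ) - 1) • A + W := by
      rw [add_comm]
      congr 1
      ext P
      simp only [Finsupp.smul_apply, smul_eq_mul, nsmul_eq_mul]
      push_cast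
      ring
    rwa [e2] at e1
  have hs : ∀ l, ∀ x ∈ L (((q' : ℤ) - 1) • A + W), s * ((w l : F) * x) ∈ L ((q' + 1) • A) := by
    intro l x hx
    have e1 := mul_mem_L h.s_mem (mul_mem_L (w l).2 hx)
    have e2 : 2 • (A - W) + (W + (((q' : ℤ) - 1) • A + W)) = (q' + 1) • A := by
      ext P
      simp only [Finsupp.add_apply, Finsupp.sub_apply, Finsupp.smul_apply, smul_eq_mul,
        nsmul_eq_mul]
      push_cast
      ring
    rwa [e2] at e1
  obtain ⟨f', g', hf', hg', hfP', hgP', e1, e2⟩ := filt haf hag hw hs hKE hGX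
    (alt_hom hc π₀.toAddMonoidHom) (alt_hom hc π₁.toAddMonoidHom) (fun I => (hmem I).1)
    (fun I => (hmem I).2) hcy
  refine ⟨fun I => algebraMap F K (f' I) + algebraMap F K (g' I) * y, ?_, ?_, ?_⟩
  · exact alt_add (alt_hom hf' (algebraMap F K).toAddMonoidHom)
      (alt_hom hg' ((AddMonoidHom.mulRight y).comp (algebraMap F K).toAddMonoidHom))
  · exact fun I => (h.mem q' _ _).2 ⟨hfP' I, hgP' I⟩
  · intro I
    rw [KMain_dk h (fun j => (a j : F)) (fun l => (w l : F)) (fun j => (v j : K)) h1 h2 f' g' I,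
      ← e1 I, ← e2 I]
    exact hπ (c I)

/-- The main theorem of block K.

Proof. By `KE.of_basis` it suffices to consider the basis of `DC.exists_basis`. For a cycle `c` let
`f I = π₀ (c I)`, `g I = π₁ (c I)` (`alt_hom`). `c I ∈ L (q • WK)` gives the memberships
(`DC.mem`), and `dk v c = algebraMap (dA f + s dW g) + algebraMap (dA g + dW f) y` (`dk_elim` or
directly, `y ^ 2 = s`) gives `Cyc1 a w s f g` (`DC.ext`). `filt` gives `f'`, `g'`;
`b I = algebraMap (f' I) + algebraMap (g' I) * y`. The hypotheses of `filt`: `mul_mem_L` and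
`s ∈ L (2 • (A - W))`: the divisors add up, for example
`2 • (A - W) + W + ((q - 1 - 1) • A + W) = q • A`. -/
theorem DC.kosExact (h : DC y s A W WK) {r g : ℕ} (a : Module.Basis (Fin r) k (L A))
    (w : Module.Basis (Fin g) k (L W)) {p q : ℕ} (hq : 2 ≤ q)
    (hKE : ∀ i ≤ p, KE (fun j => (a j : F)) (L ((q - 1) • A)) (L (q • A)) i)
    (hGX : GX (fun j => (a j : F)) (fun l => (w l : F)) (L ((q - 1) • A))
      (L ((((q - 1 : ℕ) : ℤ) - 1) • A + W)) (L (((q : ℤ) - 1) • A + W)) p) :
    KosExact WK p q := by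
  obtain ⟨v, h1, h2⟩ := h.exists_basis a w
  intro r' v' c hc hcP hcyc
  exact KE.of_basis v v' (KMain_ke h a w hq hKE hGX v h1 h2) c hc hcP hcyc

end

end Pool.Agent.MPd118f9
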