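import Pool.Agent.Lib.MP_d118f9_ag.K.KDefs

/-!
# MP_d118f9_ag, block K: functions on `X ⊕ Y` and functions of two groups of indices, formulas
-/

set_option autoImplicit false

noncomputable section

namespace Pool.Agent.MPd118f9

variable {X Y M : Type} [AddCommGroup M] {m u p : ℕ}

theorem nr_comp (I : Fin p → X ⊕ Y) (σ : Equiv.Perm (Fin p)) : nr (I ∘ σ) = nr I := by
  refine Finset.card_equiv σ fun x => ?_
  simp

theorem nr_le (I : Fin p → X ⊕ Y) : nr I ≤ p := by
  refine (Finset.card_filter_le _ _).trans ?_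
  rw [Finset.card_univ, Fintype.card_fin]

theorem nr_cons_inl (I : Fin p → X ⊕ Y) (j : X) :
    nr (Fin.cons (Sum.inl j) I : Fin (p + 1) → X ⊕ Y) = nr I := by
  rw [nr, nr, Finset.card_filter, Finset.card_filter, Fin.sum_univ_succ]
  simp

theorem nr_cons_inr (I : Fin p → X ⊕ Y) (l : Y) :
    nr (Fin.cons (Sum.inr l) I : Fin (p + 1) → X ⊕ Y) = nr I + 1 := by
  rw [nr, nr, Finset.card_filter, Finset.card_filter, Fin.sum_univ_succ]
  simp [add_comm]

theorem nr_map (e : Fin m ⊕ Fin u ≃ Fin p) (I : Fin m → X) (J : Fin u → Y) :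
    nr (Sum.map I J ∘ e.symm) = u := by
  rw [nr, Finset.card_filter]
  have h1 := Equiv.sum_comp e.symm
    (fun y : Fin m ⊕ Fin u => if (Sum.map I J y).isRight = true then (1 : ℕ) else 0)
  refine h1.trans ?_
  rw [Fintype.sum_sum_type]
  simp

/-- Proof. Both sides at `z : Fin (p + 1)` by cases (`z = 0`, `z = succ z'`, and `e.symm z'`). -/
theorem cons_inl_map (e : Fin m ⊕ Fin u ≃ Fin p) (j : X) (I : Fin m → X) (J : Fin u → Y) :
    (Fin.cons (Sum.inl j) (Sum.map I J ∘ e.symm) : Fin (p + 1) → X ⊕ Y) =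
      Sum.map (Fin.cons j I) J ∘ (eA e).symm := by
  funext z
  induction z using Fin.cases with
  | zero => rfl
  | succ z =>
    have h1 : (eA e).symm z.succ = Sum.map Fin.succ id (e.symm z) := rfl
    rw [Fin.cons_succ, Function.comp_apply, Function.comp_apply, h1]
    rcases e.symm z with x | y
    · simp
    · simp

theorem cons_inr_map (e : Fin m ⊕ Fin u ≃ Fin p) (l : Y) (I : Fin m → X) (J : Fin u → Y) :
    (Fin.cons (Sum.inr l) (Sum.map I J ∘ e.symm) : Fin (p + 1) → X ⊕ Y) =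
      Sum.map I (Fin.cons l J) ∘ (eW e).symm := by
  funext z
  induction z using Fin.cases with
  | zero => rfl
  | succ z =>
    have h1 : (eW e).symm z.succ = Sum.map id Fin.succ (e.symm z) := rfl
    rw [Fin.cons_succ, Function.comp_apply, Function.comp_apply, h1]
    rcases e.symm z with x | y
    · simp
    · simp

theorem res_dA {A : Type} [CommRing A] [Fintype X] (a : X → A) (e : Fin m ⊕ Fin u ≃ Fin p)
    (c : (Fin (p + 1) → X ⊕ Y) → A) (I : Fin m → X) (J : Fin u → Y) :
    res e (dA a c) I J = ∑ j, a j * res (eA e) c (Fin.cons j I) J := by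
  refine Finset.sum_congr rfl fun j _ => ?_
  rw [cons_inl_map e j I J]
  rfl

theorem res_dW {A : Type} [CommRing A] [Fintype Y] (w : Y → A) (e : Fin m ⊕ Fin u ≃ Fin p)
    (c : (Fin (p + 1) → X ⊕ Y) → A) (I : Fin m → X) (J : Fin u → Y) :
    res e (dW w c) I J = ∑ l, w l * res (eW e) c I (Fin.cons l J) := by
  refine Finset.sum_congr rfl fun l _ => ?_
  rw [cons_inr_map e l I J]
  rfl

/-- Proof. A permutation `σ` of `Fin m` acts on `Fin p` through `e`
(`e.symm.trans ((Equiv.Perm.sumCongr σ 1).trans e)`), with the same sign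
(`Equiv.Perm.sign_sumCongr`, `Equiv.Perm.sign_symm_trans_trans`). -/
theorem alt2_res (e : Fin m ⊕ Fin u ≃ Fin p) {c : (Fin p → X ⊕ Y) → M} (h : Alt c) :
    Alt2 (res e c) := by
  have key : ∀ (σ : Equiv.Perm (Fin m)) (τ : Equiv.Perm (Fin u)) (I : Fin m → X) (J : Fin u → Y),
      res e c (I ∘ σ) (J ∘ τ) =
        ((Equiv.Perm.sign σ * Equiv.Perm.sign τ : ℤˣ) : ℤ) • res e c I J := by
    intro σ τ I J
    have h1 := h ((e.symm.trans (Equiv.Perm.sumCongr σ τ)).trans e) (Sum.map I J ∘ e.symm)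
    rw [Equiv.Perm.sign_symm_trans_trans, Equiv.Perm.sign_sumCongr] at h1
    rw [res, res, ← h1]
    congr 1
    funext x
    simp only [Function.comp_apply, Equiv.trans_apply, Equiv.symm_apply_apply]
    rcases e.symm x with y | y
    · rfl
    · rfl
  constructor
  · intro J σ I
    have h1 := key σ 1 I J
    rw [Equiv.Perm.sign_one, mul_one] at h1
    exact h1
  · intro I τ J
    have h1 := key 1 τ I J
    rw [Equiv.Perm.sign_one, one_mul] at h1
    exact h1

/-- Another bijection `e'` of the positions changes `res` only by a sign.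
Proof. `Sum.map I J ∘ e'.symm = (Sum.map I J ∘ e.symm) ∘ (e'.symm.trans e)`. -/
theorem res_change (e e' : Fin m ⊕ Fin u ≃ Fin p) {c : (Fin p → X ⊕ Y) → M} (h : Alt c)
    (I : Fin m → X) (J : Fin u → Y) :
    res e' c I J = ((Equiv.Perm.sign (e'.symm.trans e) : ℤˣ) : ℤ) • res e c I J := by
  rw [res, res, ← h (e'.symm.trans e) (Sum.map I J ∘ e.symm)]
  congr 1
  funext x
  simp

theorem part_of_ne {c : (Fin p → X ⊕ Y) → M} {t : ℕ} {I : Fin p → X ⊕ Y} (h : nr I ≠ t) :
    part t c I = 0 := if_neg h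

theorem part_of_eq {c : (Fin p → X ⊕ Y) → M} {t : ℕ} {I : Fin p → X ⊕ Y} (h : nr I = t) :
    part t c I = c I := if_pos h

theorem part_alt {c : (Fin p → X ⊕ Y) → M} (h : Alt c) (t : ℕ) : Alt (part t c) := by
  intro σ I
  by_cases ht : nr I = t
  · rw [part_of_eq ht, part_of_eq ((nr_comp I σ).trans ht), h σ I]
  · rw [part_of_ne ht, part_of_ne (fun h1 => ht ((nr_comp I σ).symm.trans h1)), smul_zero]

theorem dA_part {A : Type} [CommRing A] [Fintype X] (a : X → A)
    (c : (Fin (p + 1) → X ⊕ Y) → A) (t : ℕ) (I : Fin p → X ⊕ Y) :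
    dA a (part t c) I = part t (dA a c) I := by
  simp only [dA, part, nr_cons_inl]
  split_ifs with h
  · rfl
  · simp

theorem part1_of_ne {c : (Fin p → X ⊕ Y) → M} {t : ℕ} {I : Fin p → X ⊕ Y} (h : nr I + 1 ≠ t) :
    part1 t c I = 0 := if_neg h

theorem part1_of_eq {c : (Fin p → X ⊕ Y) → M} {t : ℕ} {I : Fin p → X ⊕ Y} (h : nr I + 1 = t) :
    part1 t c I = c I := if_pos h

theorem part1_alt {c : (Fin p → X ⊕ Y) → M} (h : Alt c) (t : ℕ) : Alt (part1 t c) := by
  intro σ I
  have hn : nr (I ∘ σ) + 1 = nr I + 1 := by rw [nr_comp]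
  by_cases ht : nr I + 1 = t
  · rw [part1_of_eq ht, part1_of_eq (hn.trans ht), h σ I]
  · rw [part1_of_ne ht, part1_of_ne (fun h1 => ht (hn.symm.trans h1)), smul_zero]

theorem dA_part1 {A : Type} [CommRing A] [Fintype X] (a : X → A)
    (c : (Fin (p + 1) → X ⊕ Y) → A) (t : ℕ) (I : Fin p → X ⊕ Y) :
    dA a (part1 t c) I = part1 t (dA a c) I := by
  simp only [dA, part1, nr_cons_inl]
  split_ifs with h
  · rfl
  · simp

theorem dW_part {A : Type} [CommRing A] [Fintype Y] (w : Y → A)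
    (c : (Fin (p + 1) → X ⊕ Y) → A) (t : ℕ) (I : Fin p → X ⊕ Y) :
    dW w (part t c) I = part1 t (dW w c) I := by
  simp only [dW, part, part1, nr_cons_inr]
  split_ifs with h
  · rfl
  · simp

end Pool.Agent.MPd118f9
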